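import Pool.Agent.KS6_52.WK.Visc

/-!
# The action and the projected Aubry set
-/

set_option autoImplicit false

namespace Pool.Agent.KS6_52.WK

open MeasureTheory Filter Topology Set

lemma prim_add_int {g : ℝ → ℝ} (hg : Continuous g) (hp : ∀ x, g (x + 1) = g x) (x : ℝ) (n : ℤ) :
    prim g (x + n) = prim g x + n * prim g 1 := by
  have h1 : Function.Periodic (fun y => prim g y - y * prim g 1) 1 := fun y => by
    simp only
    rw [prim_add_one hg hp]
    ring
  have h2 := h1.int_mul n x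
  simp only [mul_one] at h2
  linarith

lemma prim_lip {g : ℝ → ℝ} (hg : Continuous g) {K : ℝ} (hK : ∀ x, |g x| ≤ K) (s t : ℝ) :
    |prim g s - prim g t| ≤ K * |s - t| := by
  have h2 := Convex.norm_image_sub_le_of_norm_deriv_le (f := prim g) (s := univ)
    (fun x _ => (prim_hasDerivAt hg x).differentiableAt)
    (fun x _ => by rw [(prim_hasDerivAt hg x).deriv]; exact hK x) convex_univ
    (mem_univ t) (mem_univ s)
  simpa [Real.norm_eq_abs] using h2

lemma comp_ac {G ξ : ℝ → ℝ} {K a b : ℝ} (hK : 0 < K) (hG : ∀ s t, |G s - G t| ≤ K * |s - t|)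
    (h : AbsolutelyContinuousOnInterval ξ a b) :
    AbsolutelyContinuousOnInterval (fun s => G (ξ s)) a b := by
  rw [absolutelyContinuousOnInterval_iff] at h ⊢
  intro ε hε
  obtain ⟨δ, hδ, h⟩ := h (ε / K) (by positivity)
  refine ⟨δ, hδ, fun E hE hlt => ?_⟩
  have h1 := h E hE hlt
  have h2 : ∑ k ∈ Finset.range E.1, dist (G (ξ (E.2 k).1)) (G (ξ (E.2 k).2)) ≤
      K * ∑ k ∈ Finset.range E.1, dist (ξ (E.2 k).1) (ξ (E.2 k).2) := by
    rw [Finset.mul_sum]
    apply Finset.sum_le_sum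
    intro k _
    rw [Real.dist_eq, Real.dist_eq]
    exact hG _ _
  calc _ ≤ _ := h2
    _ < K * (ε / K) := by gcongr
    _ = ε := by field_simp

section
variable {H : ℝ → ℝ → ℝ} (hH : Tonelli H)
include hH

lemma lag_bdd (x w : ℝ) : BddAbove (range fun p : ℝ => p * w - H x p) := by
  obtain ⟨B, hB⟩ := hH.superlinear |w|
  refine ⟨B, ?_⟩
  rintro _ ⟨p, rfl⟩
  have h1 := hB x p
  have h2 := le_abs_self (p * w)
  rw [abs_mul, mul_comm] at h2
  simp only
  linarith

lemma le_lag (x w p : ℝ) : p * w - H x p ≤ lag H x w := le_ciSup (lag_bdd hH x w) p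

lemma lag_eq (x p : ℝ) : lag H x (dp H x p) = p * dp H x p - H x p := by
  refine le_antisymm (ciSup_le fun q => ?_) (le_lag hH _ _ _)
  have := conv_global hH x p q
  linarith

lemma action_ge {γ g : ℝ → ℝ} {a b δ k K : ℝ} (hab : a ≤ b)
    (hac : AbsolutelyContinuousOnInterval γ a b)
    (hint : IntervalIntegrable (fun s => lag H (γ s) (deriv γ s)) volume a b)
    (hg : Continuous g) (hK : ∀ x, |g x| ≤ K)
    (hδ : ∀ s ∈ Icc a b, H (γ s) (g (γ s)) ≤ k - δ) :
    prim g (γ b) - prim g (γ a) + δ * (b - a) ≤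
      ∫ s in a..b, (lag H (γ s) (deriv γ s) + k) := by
  have hK0 : 0 ≤ K := (abs_nonneg _).trans (hK 0)
  have hVac : AbsolutelyContinuousOnInterval (fun s => prim g (γ s)) a b :=
    comp_ac (K := K + 1) (by linarith) (fun s t => (prim_lip hg hK s t).trans
      (by nlinarith [abs_nonneg (s - t)])) hac
  have hFTC := hVac.integral_deriv_eq_sub
  have h1 : prim g (γ b) - prim g (γ a) + δ * (b - a) =
      ∫ s in a..b, (deriv (fun s => prim g (γ s)) s + δ) := by
    rw [intervalIntegral.integral_add hVac.intervalIntegrable_deriv (by simp), hFTC]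
    simp [mul_comm]
  rw [h1]
  apply intervalIntegral.integral_mono_ae_restrict hab
    (hVac.intervalIntegrable_deriv.add (by simp)) (hint.add (by simp))
  have hdiff := hac.ae_differentiableAt
  rw [Filter.EventuallyLE]
  refine (ae_restrict_iff' measurableSet_Icc).2 ?_
  filter_upwards [hdiff] with s hs hmem
  have hs' := (hs (by rwa [uIcc_of_le hab])).hasDerivAt
  have h2 : HasDerivAt (fun s => prim g (γ s)) (g (γ s) * deriv γ s) s :=
    (prim_hasDerivAt hg (γ s)).comp s hs'
  rw [h2.deriv]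
  have h3 := le_lag hH (γ s) (deriv γ s) (g (γ s))
  have h4 := hδ s hmem
  linarith

/-- closed curves have nonnegative action -/
lemma minAction_nonneg {g : ℝ → ℝ} {k : ℝ} (hg : Continuous g) (hp : ∀ x, g (x + 1) = g x)
    (h0 : prim g 1 = 0) (hgk : ∀ y, H y (g y) ≤ k) {K : ℝ} (hK : ∀ x, |g x| ≤ K) (x : ℝ) {t : ℝ}
    (ht : 0 ≤ t) : 0 ≤ minAction H k x x t := by
  apply le_iInf₂
  rintro γ ⟨hac, h1, ⟨n, h2⟩, hint⟩
  have h3 := action_ge hH (k := k) (δ := 0) ht hac hint hg hK (fun s _ => by simpa using hgk _)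
  rw [h1, h2, prim_add_int hg hp, h0] at h3
  have h4 : 0 ≤ ∫ s in (0 : ℝ)..t, (lag H (γ s) (deriv γ s) + k) := by linarith
  exact_mod_cast h4

/-- points where a closed one-form is a strict subsolution are not in the Aubry set -/
lemma not_mem_aubry {g : ℝ → ℝ} {k : ℝ} (hg : Continuous g) (hp : ∀ x, g (x + 1) = g x)
    (h0 : prim g 1 = 0) (hgk : ∀ y, H y (g y) ≤ k) {K : ℝ} (hK : ∀ x, |g x| ≤ K) {x : ℝ}
    (hx : H x (g x) < k) : x ∉ aubry H k := by
  obtain ⟨δ, hδ0, hδ⟩ : ∃ δ, 0 < δ ∧ H x (g x) < k - δ :=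
    ⟨(k - H x (g x)) / 2, by linarith, by linarith⟩
  have hc : ContinuousAt (fun q : ℝ × ℝ => H q.1 (g q.1 + q.2)) (x, 0) :=
    (hH.c.comp (continuous_fst.prodMk ((hg.comp continuous_fst).add continuous_snd))).continuousAt
  have h1 : ∀ᶠ q : ℝ × ℝ in 𝓝 (x, 0), H q.1 (g q.1 + q.2) < k - δ :=
    hc.eventually_lt_const (by simpa using hδ)
  obtain ⟨r, hr, hball⟩ := Metric.eventually_nhds_iff_ball.1 h1
  set ρ := r / 2 with hρ
  have hρ0 : 0 < ρ := by positivity
  have h2 : ∀ y η, |y - x| ≤ ρ → |η| ≤ ρ → H y (g y + η) ≤ k - δ := by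
    intro y η hy hη
    refine (hball (y, η) ?_).le
    rw [Metric.mem_ball, Prod.dist_eq, max_lt_iff, Real.dist_eq, Real.dist_eq]
    constructor
    · simp only; linarith
    · simp only [sub_zero]; linarith
  have hgK : ∀ η, |η| ≤ ρ → ∀ y, |g y + η| ≤ K + ρ := fun η hη y =>
    (abs_add_le _ _).trans (add_le_add (hK y) hη)
  have hprim : ∀ η y, prim (fun z => g z + η) y = prim g y + y * η := fun η y => by
    unfold prim
    rw [intervalIntegral.integral_add (hg.intervalIntegrable _ _) (by simp)]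
    simp
  have key : ∀ t, 1 ≤ t → ∀ γ, IsCurve H x x t γ →
      min δ (ρ * ρ) ≤ ∫ s in (0 : ℝ)..t, (lag H (γ s) (deriv γ s) + k) := by
    rintro t ht γ ⟨hac, hγ0, ⟨n, hγt⟩, hint⟩
    have ht0 : 0 ≤ t := by linarith
    have hend : prim g (γ t) = prim g x := by
      rw [hγt, prim_add_int hg hp, h0]; ring
    have hγc : ContinuousOn γ (Icc 0 t) := by
      have := hac.continuousOn
      rwa [uIcc_of_le ht0] at this
    set f : ℝ → ℝ := fun s => |γ s - x| with hf
    have hfc : ContinuousOn f (Icc 0 t) := (hγc.sub continuousOn_const).abs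
    by_cases hexit : ∃ s ∈ Icc 0 t, ρ ≤ f s
    · -- first exit time
      have hScl : IsClosed (Icc 0 t ∩ f ⁻¹' (Ici ρ)) :=
        hfc.preimage_isClosed_of_isClosed isClosed_Icc isClosed_Ici
      have hScomp : IsCompact (Icc 0 t ∩ f ⁻¹' (Ici ρ)) :=
        isCompact_Icc.of_isClosed_subset hScl inter_subset_left
      obtain ⟨s₁, hs₁, hs₁'⟩ := hexit
      obtain ⟨τ, hτ, hτmin⟩ := hScomp.exists_isLeast ⟨s₁, hs₁, hs₁'⟩
      have hτρ : f τ = ρ := by
        have hf0 : f 0 = 0 := by simp [hf, hγ0]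
        obtain ⟨s, hs, hsρ⟩ := intermediate_value_Icc hτ.1.1
          (hfc.mono (Icc_subset_Icc_right hτ.1.2)) (show ρ ∈ Icc (f 0) (f τ) from
            ⟨by rw [hf0]; exact hρ0.le, hτ.2⟩)
        have : τ ≤ s := hτmin ⟨⟨hs.1, hs.2.trans hτ.1.2⟩, (hsρ.ge : ρ ≤ f s)⟩
        have e : s = τ := le_antisymm hs.2 this
        rw [← e]; exact hsρ
      have hin : ∀ s ∈ Icc 0 τ, |γ s - x| ≤ ρ := by
        intro s hs
        rcases hs.2.eq_or_lt with h | h
        · rw [h]; exact hτρ.le
        · by_contra hcon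
          exact absurd (hτmin ⟨⟨hs.1, hs.2.trans hτ.1.2⟩, (not_le.1 hcon).le⟩) (not_le.2 h)
      have hac1 : AbsolutelyContinuousOnInterval γ 0 τ := hac.mono (by
        rw [uIcc_of_le ht0, uIcc_of_le hτ.1.1]; exact Icc_subset_Icc_right hτ.1.2)
      have hac2 : AbsolutelyContinuousOnInterval γ τ t := hac.mono (by
        rw [uIcc_of_le ht0, uIcc_of_le hτ.1.2]; exact Icc_subset_Icc_left hτ.1.1)
      have hi1 : IntervalIntegrable (fun s => lag H (γ s) (deriv γ s)) volume 0 τ :=
        hint.mono_set (by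
          rw [uIcc_of_le ht0, uIcc_of_le hτ.1.1]; exact Icc_subset_Icc_right hτ.1.2)
      have hi2 : IntervalIntegrable (fun s => lag H (γ s) (deriv γ s)) volume τ t :=
        hint.mono_set (by
          rw [uIcc_of_le ht0, uIcc_of_le hτ.1.2]; exact Icc_subset_Icc_left hτ.1.1)
      have hsplit : (∫ s in (0 : ℝ)..τ, (lag H (γ s) (deriv γ s) + k)) +
          (∫ s in τ..t, (lag H (γ s) (deriv γ s) + k)) =
          ∫ s in (0 : ℝ)..t, (lag H (γ s) (deriv γ s) + k) :=
        intervalIntegral.integral_add_adjacent_intervals (hi1.add (by simp)) (hi2.add (by simp))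
      have h3 := action_ge hH (k := k) (δ := 0) hτ.1.2 hac2 hi2 hg hK
        (fun s _ => by simpa using hgk _)
      refine (min_le_right _ _).trans ?_
      rw [← hsplit]
      have hside : γ τ = x + ρ ∨ γ τ = x - ρ := by
        rcases abs_cases (γ τ - x) with h | h
        · left; have : |γ τ - x| = ρ := hτρ
          linarith
        · right; have : |γ τ - x| = ρ := hτρ
          linarith
      have hδτ : 0 ≤ δ * (τ - 0) := mul_nonneg hδ0.le (by linarith [hτ.1.1])
      rcases hside with h | h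
      · have hρabs : |ρ| ≤ ρ := by rw [abs_of_pos hρ0]
        have h4 := action_ge hH (k := k) (δ := δ) (g := fun z => g z + ρ) hτ.1.1 hac1 hi1
          (hg.add continuous_const) (hgK ρ hρabs) (fun s hs => h2 _ _ (hin s hs) hρabs)
        rw [hprim, hprim, hγ0] at h4
        have e5 : γ τ * ρ = x * ρ + ρ * ρ := by rw [h]; ring
        rw [hend] at h3
        nlinarith
      · have hρabs : |-ρ| ≤ ρ := by rw [abs_neg, abs_of_pos hρ0]
        have h4 := action_ge hH (k := k) (δ := δ) (g := fun z => g z + -ρ) hτ.1.1 hac1 hi1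
          (hg.add continuous_const) (hgK (-ρ) hρabs) (fun s hs => h2 _ _ (hin s hs) hρabs)
        rw [hprim, hprim, hγ0] at h4
        have e5 : γ τ * -ρ = x * -ρ + ρ * ρ := by rw [h]; ring
        rw [hend] at h3
        nlinarith
    · push Not at hexit
      have h3 := action_ge hH (k := k) (δ := δ) ht0 hac hint hg hK (fun s hs => by
        have := h2 (γ s) 0 (hexit s hs).le (by simpa using hρ0.le)
        simpa using this)
      rw [hend, hγ0] at h3
      refine (min_le_left _ _).trans ?_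
      nlinarith
  intro hmem
  have hmem' : liminf (minAction H k x x) atTop = 0 := hmem
  have h5 : ((min δ (ρ * ρ) : ℝ) : EReal) ≤ liminf (minAction H k x x) atTop := by
    apply le_liminf_of_le
    · isBoundedDefault
    filter_upwards [eventually_ge_atTop 1] with t ht
    apply le_iInf₂
    intro γ hγ
    exact_mod_cast key t ht γ hγ
  rw [hmem'] at h5
  have h6 : min δ (ρ * ρ) ≤ 0 := by exact_mod_cast h5
  have h7 : 0 < min δ (ρ * ρ) := lt_min hδ0 (by positivity)
  linarith

/-- orbits on a level set: the action -/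
lemma cheap {g γ : ℝ → ℝ} {α k x t : ℝ} {n : ℤ} (hg : Continuous g) (hp : ∀ x, g (x + 1) = g x)
    (hα : ∀ y, H y (g y) = α) (hγ0 : γ 0 = x) (hγt : γ t = x + n)
    (hγ : ∀ s, HasDerivAt γ (dp H (γ s) (g (γ s))) s) :
    minAction H k x x t ≤ ((n * prim g 1 - (α - k) * t : ℝ) : EReal) := by
  have hγc : Continuous γ := continuous_iff_continuousAt.2 fun s => (hγ s).continuousAt
  have hdp := cont_dp hH.c1
  have hcc : Continuous (fun s => dp H (γ s) (g (γ s))) :=
    hdp.comp (hγc.prodMk (hg.comp hγc))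
  have hd : deriv γ = fun s => dp H (γ s) (g (γ s)) := funext fun s => (hγ s).deriv
  have hlag : (fun s => lag H (γ s) (deriv γ s)) =
      fun s => g (γ s) * dp H (γ s) (g (γ s)) - α := by
    funext s
    rw [hd]
    simp only
    rw [lag_eq hH, hα]
  have hcurve : IsCurve H x x t γ := by
    refine ⟨?_, hγ0, ⟨n, hγt⟩, ?_⟩
    · have : ContDiff ℝ 1 γ := contDiff_one_iff_deriv.2
        ⟨fun s => (hγ s).differentiableAt, by rw [hd]; exact hcc⟩
      exact this.contDiffOn.absolutelyContinuousOnInterval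
    · rw [hlag]
      exact (((hg.comp hγc).mul hcc).sub continuous_const).intervalIntegrable _ _
  refine (iInf₂_le γ hcurve).trans ?_
  rw [EReal.coe_le_coe_iff]
  have h1 : ∀ s ∈ uIcc 0 t, HasDerivAt (fun s => prim g (γ s))
      (g (γ s) * dp H (γ s) (g (γ s))) s := fun s _ =>
    (prim_hasDerivAt hg (γ s)).comp s (hγ s)
  have h2 := intervalIntegral.integral_eq_sub_of_hasDerivAt h1
    (((hg.comp hγc).mul hcc).intervalIntegrable _ _)
  have h3 : (∫ s in (0 : ℝ)..t, (lag H (γ s) (deriv γ s) + k)) =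
      (∫ s in (0 : ℝ)..t, g (γ s) * dp H (γ s) (g (γ s))) + (k - α) * t := by
    have h4 : ∀ s, lag H (γ s) (deriv γ s) + k =
        g (γ s) * dp H (γ s) (g (γ s)) + (k - α) := fun s => by
      have := congrFun hlag s
      rw [this]; ring
    simp_rw [h4]
    have hi : IntervalIntegrable (fun s => g (γ s) * dp H (γ s) (g (γ s))) volume 0 t :=
      ((hg.comp hγc).mul hcc).intervalIntegrable _ _
    rw [intervalIntegral.integral_add hi (by simp)]
    simp
    ring
  rw [h3, h2, hγt, hγ0, prim_add_int hg hp]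
  linarith

end

/-- orbits of a positive vector field on the circle -/
lemma orbit {f : ℝ → ℝ} (hf : Continuous f) (hpos : ∀ y, 0 < f y) {M : ℝ} (hM0 : 0 < M)
    (hM : ∀ y, f y ≤ M) (x : ℝ) (n : ℕ) : ∃ (t : ℝ) (γ : ℝ → ℝ),
    n ≤ t * M ∧ 0 ≤ t ∧ γ 0 = x ∧ γ t = x + n ∧ ∀ s, HasDerivAt γ (f (γ s)) s := by
  have hc : Continuous fun y => (f y)⁻¹ := hf.inv₀ fun y => (hpos y).ne'
  let τ : ℝ → ℝ := fun y => ∫ s in x..y, (f s)⁻¹
  have τd : ∀ y, HasDerivAt τ (f y)⁻¹ y := fun y => (hc.integral_hasStrictDerivAt x y).hasDerivAt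
  have τc : Continuous τ := continuous_iff_continuousAt.mpr fun y => (τd y).continuousAt
  have τm : StrictMono τ := strictMono_of_deriv_pos fun y => by
    rw [(τd y).deriv]; exact inv_pos.mpr (hpos y)
  have τ0 : τ x = 0 := by simp [τ]
  have hm : Monotone fun y => τ y - M⁻¹ * y := monotone_of_deriv_nonneg
    (fun y => ((τd y).sub ((hasDerivAt_id y).const_mul _)).differentiableAt) fun y => by
      have : HasDerivAt (fun y => τ y - M⁻¹ * y) ((f y)⁻¹ - M⁻¹ * 1) y :=
        (τd y).sub ((hasDerivAt_id y).const_mul _)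
      rw [this.deriv]
      have := inv_anti₀ (hpos y) (hM y)
      linarith
  have τs : Function.Surjective τ := by
    refine τc.surjective ?_ ?_
    · refine tendsto_atTop_mono' _ ?_ (tendsto_atTop_add_const_right _ (-(M⁻¹ * x))
        (tendsto_id.const_mul_atTop (inv_pos.mpr hM0)))
      filter_upwards [eventually_ge_atTop x] with y hy
      have := hm hy
      simp only [τ0, id] at this ⊢
      linarith
    · refine tendsto_atBot_mono' _ ?_ (tendsto_atBot_add_const_right _ (-(M⁻¹ * x))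
        (tendsto_id.const_mul_atBot (inv_pos.mpr hM0)))
      filter_upwards [eventually_le_atBot x] with y hy
      have := hm hy
      simp only [τ0, id] at this ⊢
      linarith
  let E := τm.orderIsoOfSurjective τ τs
  have h1 := hm (show x ≤ x + n by simp)
  simp only [τ0] at h1
  have h2 : M⁻¹ * n ≤ τ (x + n) := by linarith
  refine ⟨τ (x + n), E.symm, ?_, le_trans (by positivity) h2, τ0 ▸ E.symm_apply_apply x,
    E.symm_apply_apply _, fun s => ?_⟩
  · rwa [inv_mul_le_iff₀ hM0, mul_comm] at h2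
  · have := HasDerivAt.of_local_left_inverse E.symm.continuous.continuousAt (τd (E.symm s))
      (inv_pos.mpr (hpos _)).ne' (Eventually.of_forall E.apply_symm_apply)
    rwa [inv_inv] at this

/-- orbits of a negative vector field on the circle -/
lemma orbit_neg {f : ℝ → ℝ} (hf : Continuous f) (hneg : ∀ y, f y < 0) {M : ℝ} (hM0 : 0 < M)
    (hM : ∀ y, -f y ≤ M) (x : ℝ) (n : ℕ) : ∃ (t : ℝ) (γ : ℝ → ℝ),
    n ≤ t * M ∧ 0 ≤ t ∧ γ 0 = x ∧ γ t = x + ((-n : ℤ) : ℝ) ∧ ∀ s, HasDerivAt γ (f (γ s)) s := by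
  obtain ⟨t, γ, h1, h2, h3, h4, h5⟩ := orbit (f := fun y => -f (-y))
    ((hf.comp continuous_neg).neg) (fun y => neg_pos.2 (hneg _)) hM0 (fun y => hM _) (-x) n
  refine ⟨t, fun s => -γ s, h1, h2, by simp [h3], by simp [h4]; ring, fun s => ?_⟩
  have := (h5 s).fun_neg
  simpa using this

section
variable {H : ℝ → ℝ → ℝ} (hH : Tonelli H)
include hH

/-- uniform continuity of the upper branch with respect to the level -/
lemma Pp_unif {k : ℝ} (hk : Adm H k) {ε : ℝ} (hε : 0 < ε) : ∃ δ, 0 < δ ∧ ∀ α, Adm H α →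
    |α - k| < δ → ∀ x, |Pp H α x - Pp H k x| ≤ ε := by
  obtain ⟨M, μ, C, -, hc⟩ := exists_cst hH (k + 1) 0
  have hμ := hc.mu_pos
  refine ⟨min 1 (μ / 2 * ε ^ 2), by positivity, fun α hα h x => ?_⟩
  have h1 : |α - k| < 1 := h.trans_le (min_le_left _ _)
  have h2 : |α - k| < μ / 2 * ε ^ 2 := h.trans_le (min_le_right _ _)
  have h3 := Pp_hold hH hc hk hα (by linarith) (by linarith [(abs_lt.1 h1).2]) x x
  simp only [sub_self, abs_zero, mul_zero, zero_add] at h3
  have h4 : μ / 2 * (Pp H α x - Pp H k x) ^ 2 ≤ μ / 2 * ε ^ 2 := h3.trans h2.le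
  have h5 := le_of_mul_le_mul_left h4 (by positivity)
  exact abs_le_of_sq_le_sq h5 hε.le

lemma Pm_unif {k : ℝ} (hk : Adm H k) {ε : ℝ} (hε : 0 < ε) : ∃ δ, 0 < δ ∧ ∀ α, Adm H α →
    |α - k| < δ → ∀ x, |Pm H α x - Pm H k x| ≤ ε := by
  obtain ⟨δ, h0, h⟩ := Pp_unif hH.rev hk.rev hε
  refine ⟨δ, h0, fun α hα hd x => ?_⟩
  have := h α hα.rev hd x
  unfold Pm
  rw [← abs_neg]
  convert this using 2
  ring

end

lemma prim_close {f g : ℝ → ℝ} (hf : Continuous f) (hg : Continuous g) {ε : ℝ}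
    (h : ∀ x, |f x - g x| ≤ ε) : |prim f 1 - prim g 1| ≤ ε := by
  unfold prim
  rw [← intervalIntegral.integral_sub (hf.intervalIntegrable _ _) (hg.intervalIntegrable _ _)]
  have := intervalIntegral.norm_integral_le_of_norm_le_const (a := (0 : ℝ)) (b := 1)
    (f := fun x => f x - g x) (C := ε) (fun x _ => h x)
  simpa using this

lemma per_bound {g : ℝ → ℝ} (hg : Continuous g) (hp : ∀ x, g (x + 1) = g x) :
    ∃ K, 0 < K ∧ ∀ x, |g x| ≤ K := by
  obtain ⟨C, hC, h⟩ := per_bdd (F := fun x _ => g x) (hg.comp continuous_fst)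
    (fun x _ => hp x) 0
  exact ⟨C, hC, fun x => h x 0 (by simp)⟩

section
variable {H : ℝ → ℝ → ℝ} (hH : Tonelli H) {k : ℝ} (hk : Adm H k)
include hH hk

omit hk in
lemma aubry_of_cheap {g : ℝ → ℝ} (hg : Continuous g) (hp : ∀ x, g (x + 1) = g x)
    (h0 : prim g 1 = 0) (hgk : ∀ y, H y (g y) ≤ k)
    (hup : ∀ x T ε, 0 < ε → ∃ t, T ≤ t ∧ minAction H k x x t ≤ ((ε : ℝ) : EReal)) :
    aubry H k = univ := by
  obtain ⟨K, -, hK⟩ := per_bound hg hp
  rw [eq_univ_iff_forall]
  intro x
  show liminf (minAction H k x x) atTop = 0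
  apply le_antisymm
  · apply le_of_forall_gt_imp_ge_of_dense
    intro b hb
    obtain ⟨ε, hε0, hεb⟩ := EReal.lt_iff_exists_real_btwn.1 hb
    have hε : 0 < ε := by exact_mod_cast hε0
    refine le_trans ?_ hεb.le
    apply liminf_le_of_frequently_le'
    rw [Filter.frequently_atTop]
    intro T
    exact hup x T ε hε
  · apply le_liminf_of_le
    · isBoundedDefault
    filter_upwards [eventually_ge_atTop 0] with t ht
    exact minAction_nonneg hH hg hp h0 hgk hK x ht

/-- the Aubry set is full when the upper branch is exact -/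
lemma aubry_upper (h0 : prim (Pp H k) 1 = 0) : aubry H k = univ := by
  refine aubry_of_cheap hH (Pp_cont hH hk) (Pp_per hH k) h0 (fun y => Pp_mem hH hk y) ?_
  intro x T ε hε
  obtain ⟨M, μ, C, -, hc⟩ := exists_cst hH (k + 1) 0
  obtain ⟨M₁, hM₁, hbd⟩ := per_bdd (cont_dp hH.c1) (dp_per hH.periodic) M
  obtain ⟨n, hn⟩ := exists_nat_ge (|T| * M₁)
  obtain ⟨δ, hδ, hunif⟩ := Pp_unif hH hk (ε := ε / (n + 1)) (by positivity)
  set α := k + min 1 (δ / 2) with hα
  have hα0 : k < α := by rw [hα]; have : 0 < min 1 (δ / 2) := by positivity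
                         linarith
  have hα1 : α ≤ k + 1 := by rw [hα]; linarith [min_le_left 1 (δ / 2)]
  have hαδ : |α - k| < δ := by
    rw [abs_of_pos (by linarith)]
    linarith [min_le_right 1 (δ / 2)]
  have hS := hk.sadm hα0
  have hA := hS.adm
  have hPc := Pp_cont hH hA
  obtain ⟨t, γ, h1, h2, h3, h4, h5⟩ := orbit (f := fun y => dp H y (Pp H α y))
    ((cont_dp hH.c1).comp (continuous_id.prodMk hPc)) (fun y => dp_Pp_pos hH hA (hS y)) hM₁
    (fun y => (le_abs_self _).trans (hbd y _ (Pp_abs hH hc hA hα1 y))) x n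
  refine ⟨t, ?_, (cheap hH (k := k) (n := n) hPc (Pp_per hH α) (H_Pp hH hA) h3
    (by simpa using h4) h5).trans ?_⟩
  · have h6 : |T| * M₁ ≤ t * M₁ := hn.trans h1
    exact (le_abs_self T).trans (le_of_mul_le_mul_right h6 hM₁)
  · rw [EReal.coe_le_coe_iff]
    have h6 := prim_close hPc (Pp_cont hH hk) (hunif α hA hαδ)
    rw [h0, sub_zero] at h6
    have h7 := (le_abs_self _).trans h6
    have h8 : (n : ℝ) * prim (Pp H α) 1 ≤ n * (ε / (n + 1)) := by gcongr
    have h9 : (n : ℝ) * (ε / (n + 1)) ≤ ε := by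
      rw [mul_div_assoc', div_le_iff₀ (by positivity)]
      nlinarith
    have h10 : 0 ≤ (α - k) * t := mul_nonneg (by linarith) h2
    push_cast
    linarith

lemma aubry_lower (h0 : prim (Pm H k) 1 = 0) : aubry H k = univ := by
  refine aubry_of_cheap hH (Pm_cont hH hk) (Pm_per hH k) h0 (fun y => (H_Pm hH hk y).le) ?_
  intro x T ε hε
  obtain ⟨M, μ, C, -, hc⟩ := exists_cst hH.rev (k + 1) 0
  obtain ⟨M₁, hM₁, hbd⟩ := per_bdd (cont_dp hH.rev.c1) (dp_per hH.rev.periodic) M
  obtain ⟨n, hn⟩ := exists_nat_ge (|T| * M₁)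
  obtain ⟨δ, hδ, hunif⟩ := Pm_unif hH hk (ε := ε / (n + 1)) (by positivity)
  set α := k + min 1 (δ / 2) with hα
  have hα0 : k < α := by rw [hα]; have : 0 < min 1 (δ / 2) := by positivity
                         linarith
  have hα1 : α ≤ k + 1 := by rw [hα]; linarith [min_le_left 1 (δ / 2)]
  have hαδ : |α - k| < δ := by
    rw [abs_of_pos (by linarith)]
    linarith [min_le_right 1 (δ / 2)]
  have hS := hk.sadm hα0
  have hA := hS.adm
  have hPc := Pm_cont hH hA
  have hdp : ∀ y, -dp H y (Pm H α y) = dp (rev H) y (Pp (rev H) α y) := fun y => by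
    rw [dp_rev]; rfl
  obtain ⟨t, γ, h1, h2, h3, h4, h5⟩ := orbit_neg (f := fun y => dp H y (Pm H α y))
    ((cont_dp hH.c1).comp (continuous_id.prodMk hPc))
    (fun y => by
      have := dp_Pp_pos hH.rev hA.rev (hS.rev y)
      rw [← hdp] at this
      linarith) hM₁
    (fun y => by
      rw [hdp]
      exact (le_abs_self _).trans (hbd y _ (Pp_abs hH.rev hc hA.rev hα1 y))) x n
  refine ⟨t, ?_, (cheap hH (k := k) (n := -n) hPc (Pm_per hH α) (H_Pm hH hA) h3
    h4 h5).trans ?_⟩
  · have h6 : |T| * M₁ ≤ t * M₁ := hn.trans h1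
    exact (le_abs_self T).trans (le_of_mul_le_mul_right h6 hM₁)
  · rw [EReal.coe_le_coe_iff]
    have h6 := prim_close hPc (Pm_cont hH hk) (hunif α hA hαδ)
    rw [h0, sub_zero] at h6
    have h7 := (neg_le_abs _).trans h6
    have h8 : (n : ℝ) * (-prim (Pm H α) 1) ≤ n * (ε / (n + 1)) := by gcongr
    have h9 : (n : ℝ) * (ε / (n + 1)) ≤ ε := by
      rw [mul_div_assoc', div_le_iff₀ (by positivity)]
      nlinarith
    have h10 : 0 ≤ (α - k) * t := mul_nonneg (by linarith) h2
    push_cast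
    linarith

/-- an Aubry point over which the branches differ forces an extreme rotation -/
lemma aubry_meet {x : ℝ} (hx : x ∈ aubry H k) (h1 : prim (Pm H k) 1 < 0)
    (h2 : 0 < prim (Pp H k) 1) : Pm H k x = Pp H k x := by
  by_contra hne
  have hlt : Pm H k x < Pp H k x := lt_of_le_of_ne (Pm_le_Pp hH hk x) hne
  set A := prim (Pp H k) 1 with hA
  set B := prim (Pm H k) 1 with hB
  set θ := -B / (A - B) with hθ
  have hAB : 0 < A - B := by linarith
  have hθ0 : 0 < θ := div_pos (by linarith) hAB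
  have hθ1 : θ < 1 := by rw [hθ, div_lt_one hAB]; linarith
  have hc1 := Pp_cont hH hk
  have hc2 := Pm_cont hH hk
  have hgc : Continuous (fun y => θ * Pp H k y + (1 - θ) * Pm H k y) := by fun_prop
  have hgp : ∀ y, θ * Pp H k (y + 1) + (1 - θ) * Pm H k (y + 1) =
      θ * Pp H k y + (1 - θ) * Pm H k y := fun y => by
    rw [Pp_per hH, Pm_per hH]
  have hg0 : prim (fun y => θ * Pp H k y + (1 - θ) * Pm H k y) 1 = 0 := by
    have : prim (fun y => θ * Pp H k y + (1 - θ) * Pm H k y) 1 = θ * A + (1 - θ) * B := by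
      unfold prim
      rw [intervalIntegral.integral_add ((hc1.const_mul _).intervalIntegrable _ _)
        ((hc2.const_mul _).intervalIntegrable _ _), intervalIntegral.integral_const_mul,
        intervalIntegral.integral_const_mul]
      rfl
    rw [this, hθ]
    field_simp
    ring
  obtain ⟨K, -, hK⟩ := per_bound hgc hgp
  refine not_mem_aubry hH hgc hgp hg0 (fun y => ?_) hK (strict_of_lt hH hk hlt hθ0 hθ1) hx
  rcases (Pm_le_Pp hH hk y).eq_or_lt with h | h
  · rw [h, ← add_mul, add_sub_cancel, one_mul]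
    exact Pp_mem hH hk y
  · exact (strict_of_lt hH hk h hθ0 hθ1).le

end

end Pool.Agent.KS6_52.WK
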