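import Pool.Agent.KS6_52.WK.Two

/-!
# The upper branch of the energy level
-/

set_option autoImplicit false

namespace Pool.Agent.KS6_52.WK

open MeasureTheory Filter Topology Set

/-- every fibre meets the sublevel `{H ≤ k}` -/
def Adm (H : ℝ → ℝ → ℝ) (k : ℝ) : Prop := ∀ x, ∃ p, H x p ≤ k

/-- every fibre meets the open sublevel `{H < k}` -/
def SAdm (H : ℝ → ℝ → ℝ) (k : ℝ) : Prop := ∀ x, ∃ p, H x p < k

/-- the upper branch of `{H = k}` -/
noncomputable def Pp (H : ℝ → ℝ → ℝ) (k x : ℝ) : ℝ := sSup {p | H x p ≤ k}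

/-- reversed momentum -/
def rev (H : ℝ → ℝ → ℝ) : ℝ → ℝ → ℝ := fun x p => H x (-p)

/-- the lower branch of `{H = k}` -/
noncomputable def Pm (H : ℝ → ℝ → ℝ) (k x : ℝ) : ℝ := -Pp (rev H) k x

variable {H : ℝ → ℝ → ℝ}

lemma Tonelli.c2 (hH : Tonelli H) : ContDiff ℝ 2 (unc H) := hH.smooth
lemma Tonelli.c1 (hH : Tonelli H) : ContDiff ℝ 1 (unc H) := hH.smooth.of_le (by norm_num)
lemma Tonelli.c (hH : Tonelli H) : Continuous (unc H) := hH.smooth.continuous

lemma Tonelli.cx (hH : Tonelli H) (x : ℝ) : Continuous (H x) :=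
  hH.c.comp (continuous_const.prodMk continuous_id)

lemma Tonelli.dpdp (hH : Tonelli H) (x p : ℝ) : 0 < dp (dp H) x p := hH.convex x p

lemma Tonelli.rev (hH : Tonelli H) : Tonelli (rev H) where
  smooth := hH.smooth.comp (contDiff_fst.prodMk contDiff_snd.neg)
  periodic x p := hH.periodic x (-p)
  convex x p := by
    have h1 : deriv (WK.rev H x) = fun q => -deriv (H x) (-q) := by
      funext q
      exact deriv_comp_neg (f := H x) q
    have h2 : deriv (deriv (WK.rev H x)) p = deriv (deriv (H x)) (-p) := by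
      rw [h1, deriv.fun_neg, deriv_comp_neg (f := deriv (H x)), neg_neg]
    rw [h2]
    exact hH.convex x (-p)
  superlinear A := by
    obtain ⟨B, hB⟩ := hH.superlinear A
    exact ⟨B, fun x p => by simpa [WK.rev] using hB x (-p)⟩

lemma rev_rev (H : ℝ → ℝ → ℝ) : rev (rev H) = H := by funext x p; simp [rev]

lemma dp_rev (x p : ℝ) : dp (rev H) x p = -dp H x (-p) := deriv_comp_neg (f := H x) p

lemma Adm.rev {k : ℝ} (h : Adm H k) : Adm (rev H) k := fun x => by
  obtain ⟨p, hp⟩ := h x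
  exact ⟨-p, by simpa [WK.rev] using hp⟩

lemma SAdm.rev {k : ℝ} (h : SAdm H k) : SAdm (rev H) k := fun x => by
  obtain ⟨p, hp⟩ := h x
  exact ⟨-p, by simpa [WK.rev] using hp⟩

lemma SAdm.adm {k : ℝ} (h : SAdm H k) : Adm H k := fun x => (h x).imp fun _ h => h.le

lemma Adm.sadm {k k' : ℝ} (h : Adm H k) (hk : k < k') : SAdm H k' :=
  fun x => (h x).imp fun _ h => h.trans_lt hk

lemma Adm.mono {k k' : ℝ} (h : Adm H k) (hk : k ≤ k') : Adm H k' :=
  fun x => (h x).imp fun _ h => h.trans hk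

/-- bounds for periodic functions -/
lemma per_fract {F : ℝ → ℝ → ℝ} (hF : ∀ x p, F (x + 1) p = F x p) (x p : ℝ) :
    F (Int.fract x) p = F x p := by
  have h : Function.Periodic (fun y => F y p) 1 := fun y => hF y p
  have h1 : F (x - ⌊x⌋ * 1) p = F x p := h.sub_int_mul_eq ⌊x⌋
  rw [mul_one] at h1
  exact h1

lemma per_bdd {F : ℝ → ℝ → ℝ} (hc : Continuous (unc F)) (hF : ∀ x p, F (x + 1) p = F x p)
    (M : ℝ) : ∃ C, 0 < C ∧ ∀ x p, |p| ≤ M → |F x p| ≤ C := by
  obtain ⟨C, hC⟩ := ((isCompact_Icc (a := (0 : ℝ)) (b := 1)).prod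
    (isCompact_Icc (a := -M) (b := M))).exists_bound_of_continuousOn hc.continuousOn
  refine ⟨max C 1, by positivity, fun x p hp => ?_⟩
  have := hC (Int.fract x, p) ⟨⟨Int.fract_nonneg x, (Int.fract_lt_one x).le⟩, abs_le.1 hp⟩
  simp only [unc, Real.norm_eq_abs, per_fract hF] at this
  exact this.trans (le_max_left _ _)

lemma per_low {F : ℝ → ℝ → ℝ} (hc : Continuous (unc F)) (hF : ∀ x p, F (x + 1) p = F x p)
    (hpos : ∀ x p, 0 < F x p) (M : ℝ) : ∃ μ, 0 < μ ∧ ∀ x p, |p| ≤ M → μ ≤ F x p := by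
  have hc' : Continuous (unc fun x p => (F x p)⁻¹) :=
    hc.inv₀ fun q => (hpos q.1 q.2).ne'
  obtain ⟨C, hC, h⟩ := per_bdd hc' (fun x p => by rw [hF]) M
  refine ⟨C⁻¹, by positivity, fun x p hp => ?_⟩
  have h1 := h x p hp
  rw [abs_of_pos (inv_pos.2 (hpos x p))] at h1
  exact inv_le_of_inv_le₀ (hpos x p) h1

lemma dx_per {F : ℝ → ℝ → ℝ} (hF : ∀ x p, F (x + 1) p = F x p) (x p : ℝ) :
    dx F (x + 1) p = dx F x p := by
  unfold dx
  rw [← deriv_comp_add_const]
  congr 1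
  funext y
  exact hF y p

lemma dp_per {F : ℝ → ℝ → ℝ} (hF : ∀ x p, F (x + 1) p = F x p) (x p : ℝ) :
    dp F (x + 1) p = dp F x p := by
  unfold dp
  congr 1
  funext q
  exact hF x q

/-- constants attached to the sublevel `{H ≤ K}` -/
structure Cst (H : ℝ → ℝ → ℝ) (K M μ C : ℝ) : Prop where
  M_pos : 0 < M
  mu_pos : 0 < μ
  C_pos : 0 < C
  bdd : ∀ x p, H x p ≤ K → |p| ≤ M
  conv : ∀ x p, |p| ≤ M → μ ≤ dp (dp H) x p
  lip : ∀ x y p, |p| ≤ M → |H x p - H y p| ≤ C * |x - y|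

lemma exists_cst (hH : Tonelli H) (K M₀ : ℝ) : ∃ M μ C, M₀ ≤ M ∧ Cst H K M μ C := by
  obtain ⟨B, hB⟩ := hH.superlinear 1
  set M := max (max (B + K) 1) M₀ with hM
  obtain ⟨μ, hμ, hμ'⟩ := per_low (cont_dp (c1_dp hH.c2)) (dp_per (dp_per hH.periodic))
    hH.dpdp M
  obtain ⟨C, hC, hC'⟩ := per_bdd (cont_dx hH.c1) (dx_per hH.periodic) M
  refine ⟨M, μ, C, le_max_right _ _, lt_of_lt_of_le one_pos
    ((le_max_right _ _).trans (le_max_left _ _)), hμ, hC, ?_, hμ', ?_⟩
  · intro x p h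
    have := hB x p
    refine le_trans ?_ ((le_max_left _ _).trans (le_max_left _ _))
    linarith
  · intro x y p hp
    have := Convex.norm_image_sub_le_of_norm_deriv_le (f := fun z => H z p) (s := univ) (C := C)
      (fun z _ => (hasDx hH.c1 z p).differentiableAt)
      (fun z _ => by
        rw [(hasDx hH.c1 z p).deriv, Real.norm_eq_abs]
        exact hC' z p hp) convex_univ (mem_univ y) (mem_univ x)
    simpa [Real.norm_eq_abs] using this

section
variable {K M μ C : ℝ} (hH : Tonelli H) (hc : Cst H K M μ C)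
include hH hc

/-- `H_p` is strongly increasing -/
lemma smono {x a b : ℝ} (ha : |a| ≤ M) (hb : |b| ≤ M) (hab : a ≤ b) :
    μ * (b - a) ≤ dp H x b - dp H x a := by
  have h1 : ∀ z, HasDerivAt (dp H x) (dp (dp H) x z) z := fun z => hasDp (c1_dp hH.c2) x z
  refine Convex.mul_sub_le_image_sub_of_le_deriv (convex_Icc a b)
    (fun z _ => (h1 z).continuousAt.continuousWithinAt)
    (fun z _ => (h1 z).differentiableAt.differentiableWithinAt) (fun z hz => ?_) a
    (left_mem_Icc.2 hab) b (right_mem_Icc.2 hab) hab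
  rw [interior_Icc] at hz
  rw [(h1 z).deriv]
  exact hc.conv x z (abs_le.2 ⟨(abs_le.1 ha).1.trans hz.1.le, hz.2.le.trans (abs_le.1 hb).2⟩)

/-- strong convexity -/
lemma sconv {x a b : ℝ} (ha : |a| ≤ M) (hb : |b| ≤ M) :
    H x a + dp H x a * (b - a) + μ / 2 * (b - a) ^ 2 ≤ H x b := by
  have h1 : ∀ z, HasDerivAt (fun t => H x t - μ / 2 * (t - a) ^ 2)
      (dp H x z - μ * (z - a)) z := fun z => by
    have h2 := (hasDp hH.c1 x z).sub
      ((((hasDerivAt_id z).sub_const a).pow 2).const_mul (μ / 2))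
    refine h2.congr_deriv ?_
    simp
    ring
  rcases le_total a b with hab | hab
  · have h3 := Convex.mul_sub_le_image_sub_of_le_deriv (C := dp H x a) (convex_Icc a b)
      (fun z _ => (h1 z).continuousAt.continuousWithinAt)
      (fun z _ => (h1 z).differentiableAt.differentiableWithinAt) (fun z hz => by
        rw [interior_Icc] at hz
        rw [(h1 z).deriv]
        have hz' : |z| ≤ M :=
          abs_le.2 ⟨(abs_le.1 ha).1.trans hz.1.le, hz.2.le.trans (abs_le.1 hb).2⟩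
        linarith [smono hH hc (x := x) ha hz' hz.1.le]) a
      (left_mem_Icc.2 hab) b (right_mem_Icc.2 hab) hab
    simp only [sub_self] at h3
    linarith
  · have h3 := Convex.image_sub_le_mul_sub_of_deriv_le (C := dp H x a) (convex_Icc b a)
      (fun z _ => (h1 z).continuousAt.continuousWithinAt)
      (fun z _ => (h1 z).differentiableAt.differentiableWithinAt) (fun z hz => by
        rw [interior_Icc] at hz
        rw [(h1 z).deriv]
        have hz' : |z| ≤ M :=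
          abs_le.2 ⟨(abs_le.1 hb).1.trans hz.1.le, hz.2.le.trans (abs_le.1 ha).2⟩
        linarith [smono hH hc (x := x) hz' ha hz.2.le]) b
      (left_mem_Icc.2 hab) a (right_mem_Icc.2 hab) hab
    simp only [sub_self] at h3
    linarith

end

lemma conv_global (hH : Tonelli H) (x a b : ℝ) : H x a + dp H x a * (b - a) ≤ H x b := by
  obtain ⟨M, μ, C, hM, hc⟩ := exists_cst hH 0 (max |a| |b|)
  have := sconv hH hc (x := x) ((le_max_left |a| |b|).trans hM) ((le_max_right |a| |b|).trans hM)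
  nlinarith [hc.mu_pos, sq_nonneg (b - a)]

section
variable (hH : Tonelli H) {k : ℝ}
include hH

lemma bddAbove_lev (x k : ℝ) : BddAbove {p | H x p ≤ k} := by
  obtain ⟨M, μ, C, -, hc⟩ := exists_cst hH k 0
  exact ⟨M, fun p hp => (abs_le.1 (hc.bdd x p hp)).2⟩

lemma le_Pp {x p k : ℝ} (h : H x p ≤ k) : p ≤ Pp H k x := le_csSup (bddAbove_lev hH x k) h

lemma Pm_le {x p k : ℝ} (h : H x p ≤ k) : Pm H k x ≤ p := by
  have := le_Pp hH.rev (x := x) (p := -p) (k := k) (by simpa [rev] using h)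
  unfold Pm
  linarith

lemma gt_Pp {x p k : ℝ} (h : Pp H k x < p) : k < H x p := by
  by_contra h'
  exact absurd (le_Pp hH (not_lt.1 h')) (not_le.2 h)

lemma Pp_mem (hk : Adm H k) (x : ℝ) : H x (Pp H k x) ≤ k :=
  (isClosed_le (hH.cx x) continuous_const).csSup_mem (hk x) (bddAbove_lev hH x k)

lemma H_Pp (hk : Adm H k) (x : ℝ) : H x (Pp H k x) = k := by
  refine le_antisymm (Pp_mem hH hk x) ?_
  have h1 : Tendsto (H x) (𝓝[>] (Pp H k x)) (𝓝 (H x (Pp H k x))) :=
    (hH.cx x).continuousAt.mono_left nhdsWithin_le_nhds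
  refine ge_of_tendsto h1 ?_
  filter_upwards [self_mem_nhdsWithin] with p hp
  exact (gt_Pp hH hp).le

lemma H_Pm (hk : Adm H k) (x : ℝ) : H x (Pm H k x) = k := H_Pp hH.rev hk.rev x

lemma dp_Pp_nonneg (hk : Adm H k) (x : ℝ) : 0 ≤ dp H x (Pp H k x) := by
  by_contra h
  push Not at h
  have h1 := conv_global hH x (Pp H k x)
  have h2 : ∀ p, Pp H k x < p → 0 ≤ H x p - H x (Pp H k x) := fun p hp => by
    rw [H_Pp hH hk]
    linarith [gt_Pp hH hp]
  have h3 := (hasDp hH.c1 x (Pp H k x)).hasDerivWithinAt (s := Ioi (Pp H k x))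
  rw [hasDerivWithinAt_iff_tendsto_slope' (by simp)] at h3
  have h4 : 0 ≤ dp H x (Pp H k x) := by
    refine ge_of_tendsto h3 ?_
    filter_upwards [self_mem_nhdsWithin] with p hp
    rw [slope_def_field]
    exact div_nonneg (h2 p hp) (sub_nonneg.2 (le_of_lt hp))
  linarith

lemma Pp_mono {k k' : ℝ} (hk : Adm H k) (h : k ≤ k') (x : ℝ) : Pp H k x ≤ Pp H k' x :=
  le_Pp hH ((Pp_mem hH hk x).trans h)

lemma Pm_le_Pp (hk : Adm H k) (x : ℝ) : Pm H k x ≤ Pp H k x := Pm_le hH (Pp_mem hH hk x)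

/-- strict inequality `H_p > 0` on the upper branch over the fibres where `{H < k}` is nonempty -/
lemma dp_Pp_pos {x : ℝ} (hk : Adm H k) (hx : ∃ p, H x p < k) : 0 < dp H x (Pp H k x) := by
  obtain ⟨p, hp⟩ := hx
  have h1 := conv_global hH x (Pp H k x) p
  rw [H_Pp hH hk] at h1
  have h2 : p ≤ Pp H k x := le_Pp hH hp.le
  have h3 := dp_Pp_nonneg hH hk x
  rcases h3.eq_or_lt with h4 | h4
  · rw [← h4] at h1
    linarith
  · exact h4

lemma Pp_lt {k k' : ℝ} (hk : Adm H k) (h : k < k') (x : ℝ) : Pp H k x < Pp H k' x := by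
  refine (Pp_mono hH hk h.le x).lt_of_ne fun h' => ?_
  have h1 := H_Pp hH hk x
  have h2 := H_Pp hH (hk.mono h.le) x
  rw [h', h2] at h1
  exact h.ne' h1

/-- where the two branches differ, the midpoint is in the open sublevel -/
lemma strict_of_lt {x : ℝ} (hk : Adm H k) (hx : Pm H k x < Pp H k x) {θ : ℝ} (h0 : 0 < θ)
    (h1 : θ < 1) : H x (θ * Pp H k x + (1 - θ) * Pm H k x) < k := by
  obtain ⟨M, μ, C, hM, hc⟩ := exists_cst hH k 0
  have ha := hc.bdd x _ (H_Pp hH hk x).le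
  have hb := hc.bdd x _ (H_Pm hH hk x).le
  set a := Pp H k x
  set b := Pm H k x
  set m := θ * a + (1 - θ) * b with hm
  have hm' : |m| ≤ M := by
    rw [abs_le] at *
    constructor <;> nlinarith
  have h2 := sconv hH hc (x := x) hm' ha
  have h3 := sconv hH hc (x := x) hm' hb
  rw [H_Pp hH hk] at h2
  rw [H_Pm hH hk] at h3
  have h4 : 0 < θ * (1 - θ) * (a - b) ^ 2 := by
    have := sub_pos.2 hx
    have := sub_pos.2 h1
    positivity
  have h5 : 0 < μ * (θ * (1 - θ) * (a - b) ^ 2) := mul_pos hc.mu_pos h4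
  have e1 : a - m = (1 - θ) * (a - b) := by rw [hm]; ring
  have e2 : b - m = -(θ * (a - b)) := by rw [hm]; ring
  rw [e1] at h2
  rw [e2] at h3
  have h6 := mul_le_mul_of_nonneg_left h2 h0.le
  have h7 := mul_le_mul_of_nonneg_left h3 (sub_pos.2 h1).le
  nlinarith

lemma eq_of_sadm_not {x : ℝ} (hk : Adm H k) (hx : Pm H k x = Pp H k x) (p : ℝ) : k ≤ H x p := by
  by_contra h
  push Not at h
  have h1 : 0 < dp H x (Pp H k x) := dp_Pp_pos hH hk ⟨p, h⟩
  have h2 : 0 < dp (rev H) x (Pp (rev H) k x) :=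
    dp_Pp_pos hH.rev hk.rev ⟨-p, by simpa [rev] using h⟩
  rw [dp_rev] at h2
  have h3 : -Pp (rev H) k x = Pp H k x := hx
  rw [h3] at h2
  linarith

end

/-! ### Continuity -/

section
variable {K M μ C : ℝ} (hH : Tonelli H) (hc : Cst H K M μ C)
include hH hc

lemma Pp_abs {k : ℝ} (hk : Adm H k) (hkK : k ≤ K) (x : ℝ) : |Pp H k x| ≤ M :=
  hc.bdd x _ ((Pp_mem hH hk x).trans hkK)

lemma Pp_hold1 {k k' : ℝ} (hk : Adm H k) (hk' : Adm H k') (hkK : k ≤ K) (hkK' : k' ≤ K)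
    {x y : ℝ} (h : Pp H k x ≤ Pp H k' y) :
    μ / 2 * (Pp H k' y - Pp H k x) ^ 2 ≤ C * |x - y| + |k' - k| := by
  have h1 := sconv hH hc (x := x) (Pp_abs hH hc hk hkK x) (Pp_abs hH hc hk' hkK' y)
  have h2 := hc.lip x y _ (Pp_abs hH hc hk' hkK' y)
  rw [H_Pp hH hk] at h1
  rw [H_Pp hH hk'] at h2
  have h3 := dp_Pp_nonneg hH hk x
  have h4 := mul_nonneg h3 (sub_nonneg.2 h)
  have h5 := le_abs_self (k' - k)
  have h6 := (abs_le.1 h2).2
  linarith

lemma Pp_hold {k k' : ℝ} (hk : Adm H k) (hk' : Adm H k') (hkK : k ≤ K) (hkK' : k' ≤ K)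
    (x y : ℝ) : μ / 2 * (Pp H k' y - Pp H k x) ^ 2 ≤ C * |x - y| + |k' - k| := by
  rcases le_total (Pp H k x) (Pp H k' y) with h | h
  · exact Pp_hold1 hH hc hk hk' hkK hkK' h
  · have := Pp_hold1 hH hc hk' hk hkK' hkK h
    rw [abs_sub_comm y x, abs_sub_comm k k'] at this
    calc _ = μ / 2 * (Pp H k x - Pp H k' y) ^ 2 := by ring
      _ ≤ _ := this

end

/-- joint continuity of `(k, x) ↦ P_k(x)` along admissible levels, as a sequential statement -/
lemma Pp_tendsto {ι : Type*} {l : Filter ι} (hH : Tonelli H) {κ ξ : ι → ℝ} {k x : ℝ}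
    (hκ : ∀ i, Adm H (κ i)) (hk : Adm H k) (h1 : Tendsto κ l (𝓝 k)) (h2 : Tendsto ξ l (𝓝 x)) :
    Tendsto (fun i => Pp H (κ i) (ξ i)) l (𝓝 (Pp H k x)) := by
  obtain ⟨M, μ, C, -, hc⟩ := exists_cst hH (k + 1) 0
  have h3 : ∀ᶠ i in l, κ i ≤ k + 1 :=
    (h1.eventually_lt_const (by linarith)).mono fun _ h => le_of_lt h
  have h4 : Tendsto (fun i => (C * |x - ξ i| + |κ i - k|) / (μ / 2)) l (𝓝 0) := by
    have h5 : Tendsto (fun i => (C * |x - ξ i| + |κ i - k|) / (μ / 2)) l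
        (𝓝 ((C * |x - x| + |k - k|) / (μ / 2))) :=
      ((((tendsto_const_nhds.sub h2).abs).const_mul C).add
        ((h1.sub tendsto_const_nhds).abs)).div_const _
    simpa using h5
  have h6 : Tendsto (fun i => (Pp H (κ i) (ξ i) - Pp H k x) ^ 2) l (𝓝 0) := by
    refine tendsto_of_tendsto_of_tendsto_of_le_of_le' tendsto_const_nhds h4
      (Eventually.of_forall fun i => sq_nonneg _) (h3.mono fun i hi => ?_)
    rw [le_div_iff₀ (by have := hc.mu_pos; positivity), mul_comm]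
    exact Pp_hold hH hc hk (hκ i) (by linarith) hi x (ξ i)
  have h7 : Tendsto (fun i => |Pp H (κ i) (ξ i) - Pp H k x|) l (𝓝 0) := by
    have := h6.sqrt
    simpa [Real.sqrt_sq_eq_abs] using this
  exact tendsto_sub_nhds_zero_iff.1 ((tendsto_zero_iff_abs_tendsto_zero _).2 h7)

lemma Pp_cont (hH : Tonelli H) {k : ℝ} (hk : Adm H k) : Continuous (Pp H k) :=
  continuous_iff_continuousAt.2 fun _ =>
    Pp_tendsto hH (fun _ => hk) hk tendsto_const_nhds tendsto_id

lemma Pp_per (hH : Tonelli H) (k x : ℝ) : Pp H k (x + 1) = Pp H k x := by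
  unfold Pp
  simp only [hH.periodic]

lemma Pm_cont (hH : Tonelli H) {k : ℝ} (hk : Adm H k) : Continuous (Pm H k) :=
  (Pp_cont hH.rev hk.rev).neg

lemma Pm_per (hH : Tonelli H) (k x : ℝ) : Pm H k (x + 1) = Pm H k x := by
  unfold Pm
  rw [Pp_per hH.rev]

end Pool.Agent.KS6_52.WK
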