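import Pool.Agent.KS6_52.WK.Branch

/-!
# Differentiability of the branches and convergence in `C¹`
-/

set_option autoImplicit false

namespace Pool.Agent.KS6_52.WK

open MeasureTheory Filter Topology Set

/-- implicit differentiation -/
lemma implicit {G : ℝ → ℝ → ℝ} (hG : ContDiff ℝ 1 (unc G)) {q : ℝ → ℝ} {x k : ℝ}
    (hq : ContinuousAt q x) (hk : ∀ y, G y (q y) = k) (hne : dp G x (q x) ≠ 0) :
    HasDerivAt q (-dx G x (q x) / dp G x (q x)) x := by
  set a := dx G x (q x) with ha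
  set b := dp G x (q x) with hb
  have h1 := (hG.differentiable one_ne_zero (x, q x)).hasFDerivAt.isLittleO
  have h2 : Tendsto (fun y => (y, q y)) (𝓝 x) (𝓝 (x, q x)) :=
    (continuousAt_id.prodMk hq)
  have h3 := h1.comp_tendsto h2
  have h4 : ∀ y, fderiv ℝ (unc G) (x, q x) ((y, q y) - (x, q x)) =
      a * (y - x) + b * (q y - q x) := by
    intro y
    have e : ((y, q y) - (x, q x) : ℝ × ℝ) = (y - x) • ((1 : ℝ), (0 : ℝ)) +
        (q y - q x) • ((0 : ℝ), (1 : ℝ)) := by simp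
    rw [e, map_add, map_smul, map_smul, smul_eq_mul, smul_eq_mul, ha, hb, dx_eq hG, dp_eq hG]
    ring
  rw [hasDerivAt_iff_isLittleO, Asymptotics.isLittleO_iff]
  rw [Asymptotics.isLittleO_iff] at h3
  intro ε hε
  set A := 1 + |a / b| with hA
  have hA0 : 0 < A := by positivity
  have hb0 : 0 < |b| := abs_pos.2 hne
  set c := min (|b| / 2) (ε * |b| / (2 * A)) with hc
  have hc0 : 0 < c := by positivity
  filter_upwards [h3 hc0] with y hy
  simp only [Function.comp_apply] at hy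
  rw [h4] at hy
  simp only [unc, hk, sub_self, zero_sub, norm_neg, Real.norm_eq_abs] at hy
  rw [smul_eq_mul, Real.norm_eq_abs, Real.norm_eq_abs]
  set D := q y - q x - (y - x) * (-a / b) with hD
  have e1 : a * (y - x) + b * (q y - q x) = b * D := by
    rw [hD]; field_simp; ring
  rw [e1, abs_mul] at hy
  have e2 : ‖((y, q y) - (x, q x) : ℝ × ℝ)‖ ≤ A * |y - x| + |D| := by
    rw [Prod.mk_sub_mk, Prod.norm_mk, Real.norm_eq_abs, Real.norm_eq_abs]
    apply max_le
    · have := abs_nonneg D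
      have := abs_nonneg (a / b)
      have := abs_nonneg (y - x)
      nlinarith
    · have e3 : q y - q x = D + (y - x) * (-a / b) := by rw [hD]; ring
      rw [e3]
      have e4 : |(y - x) * (-a / b)| = |y - x| * |a / b| := by
        rw [abs_mul, neg_div, abs_neg]
      have := abs_add_le D ((y - x) * (-a / b))
      rw [e4] at this
      have := abs_nonneg (y - x)
      nlinarith
  have e5 : |b| * |D| ≤ c * (A * |y - x| + |D|) := hy.trans (by gcongr)
  have e6 : c * |D| ≤ |b| / 2 * |D| := by gcongr; exact min_le_left _ _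
  have e7 : c * (A * |y - x|) ≤ ε * |b| / (2 * A) * (A * |y - x|) := by
    gcongr; exact min_le_right _ _
  have e8 : ε * |b| / (2 * A) * (A * |y - x|) = |b| / 2 * (ε * |y - x|) := by
    field_simp
  have e9 : |b| / 2 * |D| ≤ |b| / 2 * (ε * |y - x|) := by linarith
  exact le_of_mul_le_mul_left e9 (by positivity)

section
variable {H : ℝ → ℝ → ℝ} (hH : Tonelli H) {k : ℝ}
include hH

lemma Pp_hasDerivAt (hk : Adm H k) {x : ℝ} (hx : 0 < dp H x (Pp H k x)) :
    HasDerivAt (Pp H k) (-dx H x (Pp H k x) / dp H x (Pp H k x)) x :=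
  implicit hH.c1 (Pp_cont hH hk).continuousAt (H_Pp hH hk) hx.ne'

lemma Pp_c1 (hk : SAdm H k) : ContDiff ℝ 1 (Pp H k) := by
  have hpos : ∀ x, 0 < dp H x (Pp H k x) := fun x => dp_Pp_pos hH hk.adm (hk x)
  rw [contDiff_one_iff_deriv]
  refine ⟨fun x => (Pp_hasDerivAt hH hk.adm (hpos x)).differentiableAt, ?_⟩
  have : deriv (Pp H k) = fun x => -dx H x (Pp H k x) / dp H x (Pp H k x) :=
    funext fun x => (Pp_hasDerivAt hH hk.adm (hpos x)).deriv
  rw [this]
  have hP := continuous_id.prodMk (Pp_cont hH hk.adm)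
  exact (((cont_dx hH.c1).comp hP).neg).div ((cont_dp hH.c1).comp hP) fun x => (hpos x).ne'

lemma Pm_c1 (hk : SAdm H k) : ContDiff ℝ 1 (Pm H k) := (Pp_c1 hH.rev hk.rev).neg

/-- differentiating `H(x, P(x)) = k` -/
lemma Pp_identity (hk : Adm H k) {x P' : ℝ} (h : HasDerivAt (Pp H k) P' x) :
    dx H x (Pp H k x) + dp H x (Pp H k x) * P' = 0 := by
  have h1 := chain hH.c1 h
  have h2 : (fun y => H y (Pp H k y)) = fun _ => k := funext fun y => H_Pp hH hk y
  rw [h2] at h1
  exact h1.unique (hasDerivAt_const x k)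

lemma deriv_Pp_per (x : ℝ) : deriv (Pp H k) (x + 1) = deriv (Pp H k) x := by
  rw [← deriv_comp_add_const]
  congr 1
  funext y
  exact Pp_per hH k y

/-- `C¹` convergence of the branches at a level whose branch is `C¹` -/
lemma Pp_conv (hk : Adm H k) (hC : ContDiff ℝ 1 (Pp H k)) {ε : ℝ} (hε : 0 < ε) :
    ∃ δ, 0 < δ ∧ ∀ α, SAdm H α → |α - k| < δ → ∀ x,
      |deriv (Pp H α) x - deriv (Pp H k) x| ≤ ε := by
  by_contra hcon
  push Not at hcon
  have h1 : ∀ j : ℕ, ∃ α, SAdm H α ∧ |α - k| < 1 / ((j : ℝ) + 1) ∧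
      ∃ x ∈ Icc (0 : ℝ) 1, ε < |deriv (Pp H α) x - deriv (Pp H k) x| := by
    intro j
    obtain ⟨α, hα, hd, x, hx⟩ := hcon (1 / ((j : ℝ) + 1)) (by positivity)
    refine ⟨α, hα, hd, Int.fract x, ⟨Int.fract_nonneg x, (Int.fract_lt_one x).le⟩, ?_⟩
    have e1 := per_fract (F := fun x _ => deriv (Pp H α) x) (fun y _ => deriv_Pp_per hH y) x 0
    have e2 := per_fract (F := fun x _ => deriv (Pp H k) x) (fun y _ => deriv_Pp_per hH y) x 0
    rw [e1, e2]
    exact hx
  choose α hα hd x hx hbig using h1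
  obtain ⟨x₀, -, φ, hφ, hlim⟩ := isCompact_Icc.tendsto_subseq hx
  have hαk : Tendsto α atTop (𝓝 k) := by
    rw [← tendsto_sub_nhds_zero_iff]
    exact squeeze_zero_norm (fun j => (hd j).le) tendsto_one_div_add_atTop_nhds_zero_nat
  have hαφ : Tendsto (α ∘ φ) atTop (𝓝 k) := hαk.comp hφ.tendsto_atTop
  have hPα : Tendsto (fun j => Pp H (α (φ j)) (x (φ j))) atTop (𝓝 (Pp H k x₀)) :=
    Pp_tendsto hH (fun j => (hα (φ j)).adm) hk hαφ hlim
  have hPk : Tendsto (fun j => Pp H k (x (φ j))) atTop (𝓝 (Pp H k x₀)) :=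
    ((Pp_cont hH hk).tendsto x₀).comp hlim
  have hC' : Continuous (deriv (Pp H k)) := (contDiff_one_iff_deriv.1 hC).2
  have hkd : ∀ y, HasDerivAt (Pp H k) (deriv (Pp H k) y) y := fun y =>
    ((contDiff_one_iff_deriv.1 hC).1 y).hasDerivAt
  have hP'k : Tendsto (fun j => deriv (Pp H k) (x (φ j))) atTop (𝓝 (deriv (Pp H k) x₀)) :=
    (hC'.tendsto x₀).comp hlim
  have hpos : ∀ j y, 0 < dp H y (Pp H (α j) y) := fun j y =>
    dp_Pp_pos hH (hα j).adm (hα j y)
  have hαd : ∀ j y, HasDerivAt (Pp H (α j)) (deriv (Pp H (α j)) y) y := fun j y =>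
    (Pp_hasDerivAt hH (hα j).adm (hpos j y)).differentiableAt.hasDerivAt
  suffices hsuff : Tendsto (fun j => deriv (Pp H (α (φ j))) (x (φ j)) -
      deriv (Pp H k) (x (φ j))) atTop (𝓝 0) by
    have h2 := hsuff.abs
    rw [abs_zero] at h2
    obtain ⟨j, hj⟩ := (h2.eventually_lt_const hε).exists
    exact absurd (hbig (φ j)) (not_lt.2 hj.le)
  rcases (dp_Pp_nonneg hH hk x₀).eq_or_lt with h0 | h0
  · -- an equilibrium
    have hmin : ∀ p, k ≤ H x₀ p := fun p => by
      have := conv_global hH x₀ (Pp H k x₀) p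
      rw [← h0, H_Pp hH hk] at this
      linarith
    have hge : ∀ j, k ≤ α j := fun j => by
      obtain ⟨p, hp⟩ := hα j x₀
      linarith [hmin p]
    obtain ⟨M, μ, C, -, hc⟩ := exists_cst hH (k + 1) 0
    have hμ := hc.mu_pos
    have hle : ∀ j, α j ≤ k + 1 := fun j => by
      have h2 : |α j - k| < 1 := (hd j).trans_le (by
        rw [div_le_one (by positivity)]
        linarith [Nat.cast_nonneg (α := ℝ) j])
      linarith [(abs_lt.1 h2).2]
    have hMV : ∀ j, ∃ ξ, Pp H k (x j) ≤ ξ ∧ ξ ≤ Pp H (α j) (x j) ∧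
        |deriv (Pp H (α j)) (x j) - deriv (Pp H k) (x j)| ≤
        |dp (dx H) (x j) ξ + dp (dp H) (x j) ξ * deriv (Pp H k) (x j)| / μ := by
      intro j
      have hgt : k < α j := by
        refine (hge j).lt_of_ne fun h => ?_
        have := hbig j
        rw [← h, sub_self, abs_zero] at this
        linarith
      set y := x j
      set P := Pp H k y with hP
      set Q := Pp H (α j) y with hQ
      set P' := deriv (Pp H k) y with hP'
      set Q' := deriv (Pp H (α j)) y with hQ'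
      have hPQ : P < Q := Pp_lt hH hk hgt y
      have hF : ∀ p, HasDerivAt (fun p => dx H y p + dp H y p * P')
          (dp (dx H) y p + dp (dp H) y p * P') p := fun p =>
        (hasDp (c1_dx hH.c2) y p).add ((hasDp (c1_dp hH.c2) y p).mul_const P')
      obtain ⟨ξ, hξ, hξe⟩ := exists_hasDerivAt_eq_slope (fun p => dx H y p + dp H y p * P') _ hPQ
        (fun p _ => (hF p).continuousAt.continuousWithinAt) (fun p _ => hF p)
      refine ⟨ξ, hξ.1.le, hξ.2.le, ?_⟩
      have e1 : dx H y P + dp H y P * P' = 0 := Pp_identity hH hk (hkd y)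
      have e2 : dx H y Q + dp H y Q * Q' = 0 := Pp_identity hH (hα j).adm (hαd j y)
      have e3 : dp (dx H) y ξ + dp (dp H) y ξ * P' = -(dp H y Q * (Q' - P')) / (Q - P) := by
        rw [hξe]
        congr 1
        linarith
      have e4 : μ * (Q - P) ≤ dp H y Q - dp H y P := smono hH hc
        (Pp_abs hH hc hk (by linarith) y) (Pp_abs hH hc (hα j).adm (hle j) y) hPQ.le
      have e5 : 0 ≤ dp H y P := dp_Pp_nonneg hH hk y
      have hQP : 0 < Q - P := sub_pos.2 hPQ
      rw [e3, abs_div, abs_neg, abs_mul, abs_of_pos hQP, abs_of_pos (hpos j y), div_div,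
        le_div_iff₀ (by positivity)]
      have e6 := abs_nonneg (Q' - P')
      nlinarith
    choose ξ hξ1 hξ2 hξ3 using hMV
    have hξ : Tendsto (fun j => ξ (φ j)) atTop (𝓝 (Pp H k x₀)) :=
      tendsto_of_tendsto_of_tendsto_of_le_of_le hPk hPα (fun j => hξ1 (φ j))
        (fun j => hξ2 (φ j))
    have hpair : Tendsto (fun j => (x (φ j), ξ (φ j))) atTop (𝓝 (x₀, Pp H k x₀)) :=
      hlim.prodMk_nhds hξ
    have t1 : Tendsto (fun j => dp (dx H) (x (φ j)) (ξ (φ j))) atTop
        (𝓝 (dp (dx H) x₀ (Pp H k x₀))) := ((cont_dp (c1_dx hH.c2)).tendsto _).comp hpair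
    have t2 : Tendsto (fun j => dp (dp H) (x (φ j)) (ξ (φ j))) atTop
        (𝓝 (dp (dp H) x₀ (Pp H k x₀))) := ((cont_dp (c1_dp hH.c2)).tendsto _).comp hpair
    have hZ : dp (dx H) x₀ (Pp H k x₀) + dp (dp H) x₀ (Pp H k x₀) * deriv (Pp H k) x₀ = 0 := by
      have h2 := chain (c1_dp hH.c2) (hkd x₀)
      rw [← mixed hH.c2] at h2
      refine IsLocalMin.hasDerivAt_eq_zero (Eventually.of_forall fun y => ?_) h2
      rw [← h0]
      exact dp_Pp_nonneg hH hk y
    have t3 := ((t1.add (t2.mul hP'k)).abs).div_const μ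
    rw [hZ, abs_zero, zero_div] at t3
    exact squeeze_zero_norm (fun j => hξ3 (φ j)) t3
  · -- a regular point
    have hpair : Tendsto (fun j => (x (φ j), Pp H (α (φ j)) (x (φ j)))) atTop
        (𝓝 (x₀, Pp H k x₀)) := hlim.prodMk_nhds hPα
    have t1 : Tendsto (fun j => dx H (x (φ j)) (Pp H (α (φ j)) (x (φ j)))) atTop
        (𝓝 (dx H x₀ (Pp H k x₀))) := ((cont_dx hH.c1).tendsto _).comp hpair
    have t2 : Tendsto (fun j => dp H (x (φ j)) (Pp H (α (φ j)) (x (φ j)))) atTop
        (𝓝 (dp H x₀ (Pp H k x₀))) := ((cont_dp hH.c1).tendsto _).comp hpair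
    have e1 : ∀ j, deriv (Pp H (α (φ j))) (x (φ j)) =
        -dx H (x (φ j)) (Pp H (α (φ j)) (x (φ j))) /
          dp H (x (φ j)) (Pp H (α (φ j)) (x (φ j))) := fun j =>
      (Pp_hasDerivAt hH (hα (φ j)).adm (hpos (φ j) (x (φ j)))).deriv
    have e2 : deriv (Pp H k) x₀ = -dx H x₀ (Pp H k x₀) / dp H x₀ (Pp H k x₀) :=
      (Pp_hasDerivAt hH hk h0).deriv
    have t3 := (t1.neg.div t2 h0.ne').sub hP'k
    rw [e2, sub_self] at t3
    refine t3.congr fun j => ?_
    rw [e1]
    rfl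

end

/-- a limit of `C¹` functions in the Lipschitz sense is `C¹` -/
lemma c1_of_lip {f : ℝ → ℝ} {F : ℕ → ℝ → ℝ} {e : ℕ → ℝ} (he : Tendsto e atTop (𝓝 0))
    (hF : ∀ j, ContDiff ℝ 1 (F j)) (h1 : ∀ j x, |F j x - f x| ≤ e j)
    (h2 : ∀ j x y, 0 < |x - y| → |x - y| < 1 →
      |(F j x - f x) - (F j y - f y)| ≤ e j * |x - y|) : ContDiff ℝ 1 f := by
  have hFd : ∀ j x, HasDerivAt (F j) (deriv (F j) x) x := fun j x =>
    ((contDiff_one_iff_deriv.1 (hF j)).1 x).hasDerivAt
  have h3 : ∀ i j x, |deriv (F i) x - deriv (F j) x| ≤ e i + e j := by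
    intro i j x
    have h4 : HasDerivAt (fun y => F i y - F j y) (deriv (F i) x - deriv (F j) x) x :=
      (hFd i x).sub (hFd j x)
    rw [hasDerivAt_iff_tendsto_slope] at h4
    refine le_of_tendsto h4.abs ?_
    have h5 : ∀ᶠ y in 𝓝[≠] x, |y - x| < 1 := by
      have : ∀ᶠ y in 𝓝 x, |y - x| < 1 := Metric.eventually_nhds_iff.2
        ⟨1, one_pos, fun y hy => by rwa [Real.dist_eq] at hy⟩
      exact this.filter_mono nhdsWithin_le_nhds
    filter_upwards [h5, self_mem_nhdsWithin] with y hy hne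
    have hpos : 0 < |y - x| := abs_pos.2 (sub_ne_zero.2 hne)
    rw [slope_def_field, abs_div, div_le_iff₀ hpos]
    have a1 := h2 i y x hpos hy
    have a2 := h2 j y x hpos hy
    have e1 : (F i y - F j y) - (F i x - F j x) =
        ((F i y - f y) - (F i x - f x)) - ((F j y - f y) - (F j x - f x)) := by ring
    rw [e1]
    have a3 := abs_sub ((F i y - f y) - (F i x - f x)) ((F j y - f y) - (F j x - f x))
    linarith
  have hcau : UniformCauchySeqOn (fun j x => deriv (F j) x) atTop univ := by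
    rw [Metric.uniformCauchySeqOn_iff]
    intro ε hε
    obtain ⟨N, hN⟩ := eventually_atTop.1 (he.eventually_lt_const (half_pos hε))
    refine ⟨N, fun m hm n hn x _ => ?_⟩
    rw [Real.dist_eq]
    have := h3 m n x
    linarith [hN m hm, hN n hn]
  have hlim : ∀ x, ∃ g, Tendsto (fun j => deriv (F j) x) atTop (𝓝 g) := fun x =>
    cauchySeq_tendsto_of_complete (hcau.cauchySeq (mem_univ x))
  choose g hg using hlim
  have hunif : TendstoUniformlyOn (fun j x => deriv (F j) x) g atTop univ :=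
    hcau.tendstoUniformlyOn_of_tendsto fun x _ => hg x
  rw [tendstoUniformlyOn_univ] at hunif
  have hfF : ∀ x, Tendsto (fun j => F j x) atTop (𝓝 (f x)) := fun x => by
    rw [← tendsto_sub_nhds_zero_iff]
    exact squeeze_zero_norm (fun j => h1 j x) he
  have hfd : ∀ x, HasDerivAt f (g x) x := fun x =>
    hasDerivAt_of_tendstoUniformly hunif (Eventually.of_forall fun j => hFd j) hfF x
  rw [contDiff_one_iff_deriv]
  refine ⟨fun x => (hfd x).differentiableAt, ?_⟩
  have : deriv f = g := funext fun x => (hfd x).deriv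
  rw [this]
  exact hunif.continuous (Frequently.of_forall fun j => (contDiff_one_iff_deriv.1 (hF j)).2)

end Pool.Agent.KS6_52.WK
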