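import Pool.Agent.KS6_52.WK.Conv

/-!
# The explicit criterion
-/

set_option autoImplicit false

namespace Pool.Agent.KS6_52.WK

open MeasureTheory Filter Topology Set

/-- second order expansion at a critical point -/
lemma taylor2 {f f' : ℝ → ℝ} {x₀ m : ℝ} (hf : ∀ x, HasDerivAt f (f' x) x) (h0 : f' x₀ = 0)
    (hf' : HasDerivAt f' m x₀) {ε : ℝ} (hε : 0 < ε) :
    ∀ᶠ x in 𝓝 x₀, |f x - f x₀ - m / 2 * (x - x₀) ^ 2| ≤ ε * (x - x₀) ^ 2 := by
  rw [hasDerivAt_iff_isLittleO, Asymptotics.isLittleO_iff] at hf'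
  obtain ⟨r, hr, hball⟩ := Metric.eventually_nhds_iff_ball.1 (hf' hε)
  filter_upwards [Metric.ball_mem_nhds x₀ hr] with x hx
  rw [Metric.mem_ball, Real.dist_eq] at hx
  have hg : ∀ z, HasDerivAt (fun z => f z - m / 2 * (z - x₀) ^ 2) (f' z - m * (z - x₀)) z :=
    fun z => by
      have h2 := (hf z).sub ((((hasDerivAt_id z).sub_const x₀).pow 2).const_mul (m / 2))
      refine h2.congr_deriv ?_
      simp
      ring
  have h1 := Convex.norm_image_sub_le_of_norm_deriv_le
    (f := fun z => f z - m / 2 * (z - x₀) ^ 2) (s := uIcc x₀ x) (C := ε * |x - x₀|)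
    (fun z _ => (hg z).differentiableAt) (fun z hz => by
      rw [(hg z).deriv]
      have hz' : |z - x₀| ≤ |x - x₀| := by
        rw [mem_uIcc] at hz
        rcases hz with h | h
        · rw [abs_of_nonneg (by linarith), abs_of_nonneg (by linarith)]; linarith
        · rw [abs_of_nonpos (by linarith), abs_of_nonpos (by linarith)]; linarith
      have h3 := hball z (by rw [Metric.mem_ball, Real.dist_eq]; linarith)
      rw [h0, sub_zero, smul_eq_mul, Real.norm_eq_abs] at h3
      rw [Real.norm_eq_abs, mul_comm m]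
      refine h3.trans ?_
      rw [Real.norm_eq_abs]
      gcongr) (convex_uIcc _ _) left_mem_uIcc right_mem_uIcc
  simp only [sub_self, Real.norm_eq_abs] at h1
  have e1 : f x - m / 2 * (x - x₀) ^ 2 - (f x₀ - m / 2 * 0 ^ 2) =
      f x - f x₀ - m / 2 * (x - x₀) ^ 2 := by ring
  rw [e1] at h1
  refine h1.trans (le_of_eq ?_)
  rw [mul_assoc, ← abs_mul, ← sq, abs_of_nonneg (sq_nonneg _)]

/-- nonnegative functions with small second derivative -/
lemma sq_deriv_le {f f' f'' : ℝ → ℝ} {x₀ η r : ℝ} (hη : 0 < η) (hf : ∀ x, HasDerivAt f (f' x) x)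
    (hf' : ∀ x, HasDerivAt f' (f'' x) x) (hpos : ∀ x, 0 ≤ f x) (h0 : f' x₀ = 0)
    (hb : ∀ x ∈ Metric.ball x₀ (2 * r), |f'' x| ≤ η) {x : ℝ} (hx : x ∈ Metric.ball x₀ r) :
    f' x ^ 2 ≤ 4 * η * f x := by
  have hr : 0 < r := Metric.pos_of_mem_ball hx
  have hlip : ∀ y ∈ Metric.ball x₀ (2 * r), ∀ z ∈ Metric.ball x₀ (2 * r),
      |f' y - f' z| ≤ η * |y - z| := fun y hy z hz => by
    have := Convex.norm_image_sub_le_of_norm_deriv_le (f := f') (s := Metric.ball x₀ (2 * r))
      (C := η) (fun w _ => (hf' w).differentiableAt)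
      (fun w hw => by rw [(hf' w).deriv]; exact hb w hw) (convex_ball _ _) hz hy
    simpa [Real.norm_eq_abs] using this
  have hx2 : x ∈ Metric.ball x₀ (2 * r) := Metric.ball_subset_ball (by linarith) hx
  have hx₀ : x₀ ∈ Metric.ball x₀ (2 * r) := Metric.mem_ball_self (by linarith)
  have h1 := hlip x hx2 x₀ hx₀
  rw [h0, sub_zero] at h1
  have hxr : |x - x₀| < r := by rwa [Metric.mem_ball, Real.dist_eq] at hx
  set s := f' x / (2 * η) with hs
  have hsr : |s| < r := by
    rw [hs, abs_div, abs_of_pos (show (0 : ℝ) < 2 * η by linarith), div_lt_iff₀ (by linarith)]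
    nlinarith
  set y := x - s with hy
  have hseg : uIcc x y ⊆ Metric.ball x₀ (2 * r) := by
    intro z hz
    rw [Metric.mem_ball, Real.dist_eq, abs_lt]
    rw [mem_uIcc, hy] at hz
    rw [abs_lt] at hsr hxr
    rcases hz with h | h <;> constructor <;> linarith [h.1, h.2]
  have hg : ∀ z, HasDerivAt (fun z => f z - f' x * z) (f' z - f' x) z := fun z => by
    exact ((hf z).sub ((hasDerivAt_id z).const_mul (f' x))).congr_deriv (by ring)
  have h2 := Convex.norm_image_sub_le_of_norm_deriv_le (f := fun z => f z - f' x * z)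
    (s := uIcc x y) (C := η * |y - x|) (fun z _ => (hg z).differentiableAt) (fun z hz => by
      rw [(hg z).deriv, Real.norm_eq_abs]
      refine (hlip z (hseg hz) x hx2).trans ?_
      have : |z - x| ≤ |y - x| := by
        rw [mem_uIcc] at hz
        rcases hz with h | h
        · rw [abs_of_nonneg (by linarith), abs_of_nonneg (by linarith)]; linarith
        · rw [abs_of_nonpos (by linarith), abs_of_nonpos (by linarith)]; linarith
      gcongr) (convex_uIcc _ _) left_mem_uIcc right_mem_uIcc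
  simp only [Real.norm_eq_abs] at h2
  have e1 : y - x = -s := by rw [hy]; ring
  rw [mul_assoc, ← abs_mul, ← sq, abs_of_nonneg (sq_nonneg (y - x)), e1] at h2
  have h3 := (le_abs_self _).trans h2
  have h4 := hpos y
  have e2 : f' x = 2 * η * s := by rw [hs]; field_simp
  have e3 : f' x * y = f' x * x - f' x * s := by rw [hy]; ring
  rw [e3, e2] at h3
  rw [e2]
  nlinarith

section
variable {H : ℝ → ℝ → ℝ} (hH : Tonelli H)
include hH

/-- the fibrewise minimum point -/
lemma exists_argmin : ∃ q : ℝ → ℝ, ∀ x p, H x (q x) ≤ H x p := by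
  obtain ⟨K, hK, hK'⟩ := per_bdd hH.c hH.periodic 0
  obtain ⟨M, μ, C, -, hc⟩ := exists_cst hH K 0
  have hM := hc.M_pos
  have h1 : ∀ x, ∃ q, ∀ p, H x q ≤ H x p := fun x => by
    obtain ⟨q, hq, hmin⟩ := (isCompact_Icc (a := -M) (b := M)).exists_isMinOn
      ⟨0, by constructor <;> linarith⟩ (hH.cx x).continuousOn
    refine ⟨q, fun p => ?_⟩
    by_cases hp : |p| ≤ M
    · exact hmin (abs_le.1 hp)
    · have h2 : K < H x p := by
        by_contra hcon
        exact hp (hc.bdd x p (not_lt.1 hcon))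
      have h3 : H x q ≤ H x 0 := hmin (show (0 : ℝ) ∈ Icc (-M) M by constructor <;> linarith)
      have h4 := (le_abs_self _).trans (hK' x 0 (by simp))
      linarith
  choose q hq using h1
  exact ⟨q, hq⟩

variable {q : ℝ → ℝ} (hq : ∀ x p, H x (q x) ≤ H x p)
include hq

omit hH in
lemma iInf_eq (x : ℝ) : ⨅ p, H x p = H x (q x) :=
  le_antisymm (ciInf_le ⟨H x (q x), by rintro _ ⟨p, rfl⟩; exact hq x p⟩ (q x))
    (le_ciInf fun p => hq x p)

lemma dp_argmin (x : ℝ) : dp H x (q x) = 0 :=
  IsLocalMin.hasDerivAt_eq_zero (Eventually.of_forall fun p => hq x p) (hasDp hH.c1 x (q x))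

/-- constants adapted to the minimum point -/
lemma argmin_cst (K : ℝ) : ∃ M μ C, (∀ x, |q x| ≤ M) ∧ Cst H K M μ C := by
  obtain ⟨K₀, hK₀, hK₀'⟩ := per_bdd hH.c hH.periodic 0
  obtain ⟨M₀, μ₀, C₀, -, hc₀⟩ := exists_cst hH K₀ 0
  obtain ⟨M, μ, C, hM, hc⟩ := exists_cst hH K M₀
  refine ⟨M, μ, C, fun x => (hc₀.bdd x (q x) ?_).trans hM, hc⟩
  exact (hq x 0).trans ((le_abs_self _).trans (hK₀' x 0 (by simp)))

lemma argmin_cont : Continuous q := by
  obtain ⟨M, μ, C, hqM, hc⟩ := argmin_cst hH hq 0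
  have hμ := hc.mu_pos
  have h1 : ∀ x y, (q y - q x) ^ 2 ≤ 2 * C / μ * |y - x| := fun x y => by
    have a1 := sconv hH hc (x := x) (hqM x) (hqM y)
    have a2 := sconv hH hc (x := y) (hqM y) (hqM x)
    rw [dp_argmin hH hq] at a1 a2
    have a3 := (abs_le.1 (hc.lip x y (q y) (hqM y))).2
    have a4 := (abs_le.1 (hc.lip x y (q x) (hqM x))).1
    rw [abs_sub_comm] at a3 a4
    rw [div_mul_eq_mul_div, le_div_iff₀ hμ]
    nlinarith
  rw [continuous_iff_continuousAt]
  intro x
  have h2 : Tendsto (fun y => 2 * C / μ * |y - x|) (𝓝 x) (𝓝 0) := by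
    have : Continuous (fun y => 2 * C / μ * |y - x|) := by fun_prop
    have := this.tendsto x
    simpa using this
  have h3 : Tendsto (fun y => (q y - q x) ^ 2) (𝓝 x) (𝓝 0) :=
    tendsto_of_tendsto_of_tendsto_of_le_of_le tendsto_const_nhds h2 (fun y => sq_nonneg _)
      (fun y => h1 x y)
  have h4 : Tendsto (fun y => |q y - q x|) (𝓝 x) (𝓝 0) := by
    have := h3.sqrt
    simpa [Real.sqrt_sq_eq_abs] using this
  exact tendsto_sub_nhds_zero_iff.1 ((tendsto_zero_iff_abs_tendsto_zero _).2 h4)

/-- the derivative of the minimum point -/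
lemma argmin_hasDerivAt (x : ℝ) :
    HasDerivAt q (-dx (dp H) x (q x) / dp (dp H) x (q x)) x :=
  implicit (c1_dp hH.c2) (argmin_cont hH hq).continuousAt (dp_argmin hH hq) (hH.dpdp _ _).ne'

lemma deriv_argmin_cont : Continuous (fun x => -dx (dp H) x (q x) / dp (dp H) x (q x)) := by
  have hP := continuous_id.prodMk (argmin_cont hH hq)
  exact (((cont_dx (c1_dp hH.c2)).comp hP).neg).div ((cont_dp (c1_dp hH.c2)).comp hP)
    fun x => (hH.dpdp _ _).ne'

lemma e_hasDerivAt (x : ℝ) : HasDerivAt (fun x => H x (q x)) (dx H x (q x)) x := by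
  have := chain hH.c1 (argmin_hasDerivAt hH hq x)
  rwa [dp_argmin hH hq, zero_mul, add_zero] at this

lemma e'_hasDerivAt (x : ℝ) : HasDerivAt (fun x => dx H x (q x))
    (dx (dx H) x (q x) + dp (dx H) x (q x) * (-dx (dp H) x (q x) / dp (dp H) x (q x))) x :=
  chain (c1_dx hH.c2) (argmin_hasDerivAt hH hq x)

lemma e''_cont : Continuous (fun x => dx (dx H) x (q x) +
    dp (dx H) x (q x) * (-dx (dp H) x (q x) / dp (dp H) x (q x))) := by
  have hP := continuous_id.prodMk (argmin_cont hH hq)
  exact ((cont_dx (c1_dx hH.c2)).comp hP).add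
    (((cont_dp (c1_dx hH.c2)).comp hP).mul (deriv_argmin_cont hH hq))

lemma deriv2_e (x : ℝ) : deriv (deriv fun y => ⨅ p, H y p) x =
    dx (dx H) x (q x) + dp (dx H) x (q x) * (-dx (dp H) x (q x) / dp (dp H) x (q x)) := by
  have e1 : (fun y => ⨅ p, H y p) = fun y => H y (q y) := funext fun y => iInf_eq hq y
  have e2 : deriv (fun y => H y (q y)) = fun y => dx H y (q y) :=
    funext fun y => (e_hasDerivAt hH hq y).deriv
  rw [e1, e2]
  exact (e'_hasDerivAt hH hq x).deriv

/-- comparison of the gap of the branches with the depth of the well -/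
lemma gap {k : ℝ} (hk : Adm H k) : ∃ μ μ₂ : ℝ, 0 < μ ∧ 0 < μ₂ ∧
    (∀ x, 0 ≤ Pp H k x - q x) ∧
    (∀ x, μ / 2 * (Pp H k x - q x) ^ 2 ≤ k - H x (q x)) ∧
    (∀ x, k - H x (q x) ≤ μ₂ * (Pp H k x - q x) ^ 2) ∧
    (∀ x, μ * (Pp H k x - q x) ≤ dp H x (Pp H k x)) := by
  obtain ⟨M, μ, C, hqM, hc⟩ := argmin_cst hH hq k
  obtain ⟨μ₂, hμ₂, hbd⟩ := per_bdd (cont_dp (c1_dp hH.c2)) (dp_per (dp_per hH.periodic)) M
  have hPM := fun x => Pp_abs hH hc hk le_rfl x
  have hle : ∀ x, q x ≤ Pp H k x := fun x => by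
    obtain ⟨p, hp⟩ := hk x
    exact le_Pp hH ((hq x p).trans hp)
  have hdp : ∀ x, dp H x (Pp H k x) ≤ μ₂ * (Pp H k x - q x) := fun x => by
    have h1 : ∀ z, HasDerivAt (dp H x) (dp (dp H) x z) z := fun z => hasDp (c1_dp hH.c2) x z
    have h2 := Convex.image_sub_le_mul_sub_of_deriv_le (C := μ₂) (f := dp H x)
      (convex_Icc (q x) (Pp H k x))
      (fun z _ => (h1 z).continuousAt.continuousWithinAt)
      (fun z _ => (h1 z).differentiableAt.differentiableWithinAt) (fun z hz => by
        rw [interior_Icc] at hz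
        rw [(h1 z).deriv]
        exact (le_abs_self _).trans (hbd x z (abs_le.2 ⟨(abs_le.1 (hqM x)).1.trans hz.1.le,
          hz.2.le.trans (abs_le.1 (hPM x)).2⟩))) (q x)
      (left_mem_Icc.2 (hle x)) (Pp H k x) (right_mem_Icc.2 (hle x)) (hle x)
    rw [dp_argmin hH hq] at h2
    linarith
  refine ⟨μ, μ₂, hc.mu_pos, hμ₂, fun x => sub_nonneg.2 (hle x), fun x => ?_, fun x => ?_,
    fun x => ?_⟩
  · have := sconv hH hc (x := x) (hqM x) (hPM x)
    rw [dp_argmin hH hq, H_Pp hH hk] at this
    linarith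
  · have h1 := conv_global hH x (Pp H k x) (q x)
    rw [H_Pp hH hk] at h1
    have h2 := mul_le_mul_of_nonneg_right (hdp x) (sub_nonneg.2 (hle x))
    nlinarith
  · have := smono hH hc (x := x) (hqM x) (hPM x) (hle x)
    rw [dp_argmin hH hq] at this
    linarith

/-- the criterion for the upper branch -/
lemma crit {k : ℝ} (hk : Adm H k) :
    ContDiff ℝ 1 (Pp H k) ↔ ∀ x, H x (q x) = k →
      dx (dx H) x (q x) + dp (dx H) x (q x) * (-dx (dp H) x (q x) / dp (dp H) x (q x)) = 0 := by
  obtain ⟨μ, μ₂, hμ, hμ₂, hD0, hD1, hD2, hD3⟩ := gap hH hq hk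
  set q' : ℝ → ℝ := fun x => -dx (dp H) x (q x) / dp (dp H) x (q x) with hq'
  have hqd : ∀ x, HasDerivAt q (q' x) x := argmin_hasDerivAt hH hq
  set f : ℝ → ℝ := fun x => k - H x (q x) with hf
  set f' : ℝ → ℝ := fun x => -dx H x (q x) with hf'
  set f'' : ℝ → ℝ := fun x => -(dx (dx H) x (q x) + dp (dx H) x (q x) * q' x) with hf''
  have hfd : ∀ x, HasDerivAt f (f' x) x := fun x => (e_hasDerivAt hH hq x).const_sub k
  have hf'd : ∀ x, HasDerivAt f' (f'' x) x := fun x => (e'_hasDerivAt hH hq x).neg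
  have hf''c : Continuous f'' := (e''_cont hH hq).neg
  have hfpos : ∀ x, 0 ≤ f x := fun x => by
    obtain ⟨p, hp⟩ := hk x
    have := hq x p
    simp only [hf]
    linarith
  have hcrit : ∀ x, f x = 0 → f' x = 0 := fun x hx =>
    IsLocalMin.hasDerivAt_eq_zero (Eventually.of_forall fun y => by rw [hx]; exact hfpos y) (hfd x)
  have hDz : ∀ x, f x = 0 → Pp H k x - q x = 0 := fun x hx => by
    have h1 := hD1 x
    have h2 : k - H x (q x) = 0 := hx
    rw [h2] at h1
    have h3 : (Pp H k x - q x) ^ 2 ≤ 0 := by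
      by_contra hcon
      have := mul_pos (half_pos hμ) (not_le.1 hcon)
      linarith
    exact pow_eq_zero_iff (two_ne_zero) |>.1 (le_antisymm h3 (sq_nonneg _))
  constructor
  · intro hC x₀ hx₀
    have hfx : f x₀ = 0 := by simp only [hf]; linarith
    have hPd : HasDerivAt (Pp H k) (deriv (Pp H k) x₀) x₀ :=
      ((contDiff_one_iff_deriv.1 hC).1 x₀).hasDerivAt
    have hDd := hPd.sub (hqd x₀)
    have hz : deriv (Pp H k) x₀ - q' x₀ = 0 :=
      IsLocalMin.hasDerivAt_eq_zero (Eventually.of_forall fun y => by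
        simp only [Pi.sub_apply]
        rw [hDz x₀ hfx]; exact hD0 y) hDd
    rw [hz, hasDerivAt_iff_isLittleO, Asymptotics.isLittleO_iff] at hDd
    suffices h : f'' x₀ = 0 by
      simp only [hf''] at h
      linarith
    by_contra hne
    set m := f'' x₀ with hm
    have hm0 : 0 < |m| := abs_pos.2 hne
    have h1 := taylor2 hfd (hcrit x₀ hfx) (hf'd x₀) (ε := |m| / 8) (by positivity)
    have h2 := hDd (c := Real.sqrt (|m| / (8 * μ₂))) (by positivity)
    have h3 : ∀ᶠ y in 𝓝[≠] x₀, False := by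
      filter_upwards [h1.filter_mono nhdsWithin_le_nhds, h2.filter_mono nhdsWithin_le_nhds,
        self_mem_nhdsWithin] with y a1 a2 hy
      have hpos : 0 < (y - x₀) ^ 2 := by
        have := sub_ne_zero.2 (show y ≠ x₀ from hy)
        positivity
      simp only [Pi.sub_apply, hDz x₀ hfx, smul_zero, sub_zero, Real.norm_eq_abs] at a2
      have a3 : (Pp H k y - q y) ^ 2 ≤ |m| / (8 * μ₂) * (y - x₀) ^ 2 := by
        have := pow_le_pow_left₀ (abs_nonneg _) a2 2
        rwa [sq_abs, mul_pow, sq_abs, Real.sq_sqrt (by positivity)] at this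
      have a4 : f y ≤ μ₂ * (Pp H k y - q y) ^ 2 := hD2 y
      have a5 : μ₂ * (Pp H k y - q y) ^ 2 ≤ |m| / 8 * (y - x₀) ^ 2 := by
        calc _ ≤ μ₂ * (|m| / (8 * μ₂) * (y - x₀) ^ 2) := by gcongr
          _ = _ := by field_simp
      have a6 := hfpos y
      rw [hfx, sub_zero] at a1
      have a7 : |m / 2 * (y - x₀) ^ 2| ≤ |m| / 8 * (y - x₀) ^ 2 + |m| / 8 * (y - x₀) ^ 2 := by
        have e1 : m / 2 * (y - x₀) ^ 2 = f y - (f y - m / 2 * (y - x₀) ^ 2) := by ring
        rw [e1]
        refine (abs_sub _ _).trans (add_le_add ?_ a1)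
        rw [abs_of_nonneg a6]
        linarith
      rw [abs_mul, abs_div, abs_of_pos hpos, abs_of_pos (show (0 : ℝ) < 2 by norm_num)] at a7
      nlinarith
    exact h3.exists.elim fun _ h => h
  · intro hcond
    have hc' : ∀ x, f x = 0 → f'' x = 0 := fun x hx => by
      have := hcond x (by simp only [hf] at hx; linarith)
      simp only [hf'']
      linarith
    -- differentiability at the equilibria
    have hDeq : ∀ x, f x = 0 → HasDerivAt (Pp H k) (q' x) x := by
      intro x₀ hx₀
      have hD : HasDerivAt (fun y => Pp H k y - q y) 0 x₀ := by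
        rw [hasDerivAt_iff_isLittleO, Asymptotics.isLittleO_iff]
        intro c hc
        have h1 := taylor2 hfd (hcrit x₀ hx₀) (hf'd x₀) (ε := μ / 2 * c ^ 2) (by positivity)
        filter_upwards [h1] with y hy
        rw [hc' x₀ hx₀, hx₀] at hy
        simp only [hDz x₀ hx₀, smul_zero, sub_zero, Real.norm_eq_abs]
        simp only [zero_div, zero_mul, sub_zero] at hy
        have a1 := (le_abs_self _).trans hy
        have a2 : μ / 2 * (Pp H k y - q y) ^ 2 ≤ μ / 2 * (c * |y - x₀|) ^ 2 := by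
          refine (hD1 y).trans (a1.trans (le_of_eq ?_))
          rw [mul_pow, sq_abs]; ring
        have a3 := le_of_mul_le_mul_left a2 (by positivity)
        exact abs_le_of_sq_le_sq a3 (by positivity)
      have := hD.add (hqd x₀)
      rw [zero_add] at this
      refine this.congr_of_eventuallyEq (Eventually.of_forall fun y => ?_)
      simp
    have hreg : ∀ x, f x ≠ 0 → 0 < dp H x (Pp H k x) := fun x hx =>
      dp_Pp_pos hH hk ⟨q x, by
        have := lt_of_le_of_ne (hfpos x) hx.symm
        simp only [hf] at this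
        linarith⟩
    rw [contDiff_one_iff_deriv]
    have hdiff : Differentiable ℝ (Pp H k) := fun x => by
      by_cases hx : f x = 0
      · exact (hDeq x hx).differentiableAt
      · exact (Pp_hasDerivAt hH hk (hreg x hx)).differentiableAt
    refine ⟨hdiff, continuous_iff_continuousAt.2 fun x₀ => ?_⟩
    have hPc := Pp_cont hH hk
    have hqc := argmin_cont hH hq
    have hfc : Continuous f := continuous_iff_continuousAt.2 fun x => (hfd x).continuousAt
    by_cases hx₀ : f x₀ = 0
    · -- near an equilibrium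
      have hPx : Pp H k x₀ = q x₀ := sub_eq_zero.1 (hDz x₀ hx₀)
      have hq'c : Continuous q' := deriv_argmin_cont hH hq
      have key : Tendsto (fun x => deriv (Pp H k) x - q' x) (𝓝 x₀) (𝓝 0) := by
        rw [Metric.tendsto_nhds]
        intro ε hε
        -- small second derivative
        set η := (μ * ε) ^ 2 / (64 * μ₂) with hη
        have hη0 : 0 < η := by positivity
        have h1 : ∀ᶠ x in 𝓝 x₀, |f'' x| < η := by
          have : Tendsto (fun x => |f'' x|) (𝓝 x₀) (𝓝 |f'' x₀|) := (hf''c.tendsto x₀).abs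
          rw [hc' x₀ hx₀, abs_zero] at this
          exact this.eventually_lt_const hη0
        obtain ⟨R, hR, hRb⟩ := Metric.eventually_nhds_iff_ball.1 h1
        have h2 : ∀ x ∈ Metric.ball x₀ (R / 2), f' x ^ 2 ≤ 4 * η * f x := fun x hx =>
          sq_deriv_le hη0 hfd hf'd hfpos (hcrit x₀ hx₀) (fun y hy => (hRb y (by
            rwa [show 2 * (R / 2) = R by ring] at hy)).le) hx
        -- the mixed term
        have hNc : Continuous (fun z : ℝ × ℝ => dp (dx H) z.1 z.2 + dp (dp H) z.1 z.2 * q' z.1) :=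
          (cont_dp (c1_dx hH.c2)).add
            ((cont_dp (c1_dp hH.c2)).mul (hq'c.comp continuous_fst))
        have hN0 : dp (dx H) x₀ (q x₀) + dp (dp H) x₀ (q x₀) * q' x₀ = 0 := by
          simp only [hq']
          rw [mixed hH.c2]
          have := (hH.dpdp x₀ (q x₀)).ne'
          field_simp
          ring
        have h3 : ∀ᶠ z : ℝ × ℝ in 𝓝 (x₀, q x₀),
            |dp (dx H) z.1 z.2 + dp (dp H) z.1 z.2 * q' z.1| < μ * ε / 4 := by
          have : Tendsto (fun z : ℝ × ℝ => |dp (dx H) z.1 z.2 + dp (dp H) z.1 z.2 * q' z.1|)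
              (𝓝 (x₀, q x₀)) (𝓝 |dp (dx H) x₀ (q x₀) + dp (dp H) x₀ (q x₀) * q' x₀|) :=
            (hNc.tendsto (x₀, q x₀)).abs
          rw [hN0, abs_zero] at this
          exact this.eventually_lt_const (by positivity)
        obtain ⟨ρ, hρ, hρb⟩ := Metric.eventually_nhds_iff_ball.1 h3
        have h4 : ∀ᶠ x in 𝓝 x₀, |q x - q x₀| < ρ :=
          Metric.tendsto_nhds.1 (hqc.tendsto x₀) ρ hρ
        have h5 : ∀ᶠ x in 𝓝 x₀, |Pp H k x - q x₀| < ρ := by
          have := Metric.tendsto_nhds.1 (hPc.tendsto x₀) ρ hρ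
          rwa [hPx] at this
        filter_upwards [Metric.ball_mem_nhds x₀ (half_pos hR), Metric.ball_mem_nhds x₀ hρ, h4, h5]
          with x hxR hxρ hxq hxP
        rw [Real.dist_eq, sub_zero]
        by_cases hx : f x = 0
        · rw [(hDeq x hx).deriv, sub_self, abs_zero]
          exact hε
        · have hpos := hreg x hx
          have hfx : 0 < f x := lt_of_le_of_ne (hfpos x) (Ne.symm hx)
          have hD : 0 < Pp H k x - q x := by
            refine lt_of_le_of_ne (hD0 x) fun h => ?_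
            have := hD2 x
            rw [← h] at this
            have h8 : f x ≤ μ₂ * 0 ^ 2 := this
            have h9 : μ₂ * (0 : ℝ) ^ 2 = 0 := by ring
            linarith
          have hlt : q x < Pp H k x := by linarith
          have hF : ∀ p, HasDerivAt (fun p => dx H x p + dp H x p * q' x)
              (dp (dx H) x p + dp (dp H) x p * q' x) p := fun p =>
            (hasDp (c1_dx hH.c2) x p).add ((hasDp (c1_dp hH.c2) x p).mul_const (q' x))
          obtain ⟨ξ, hξ, hξe⟩ := exists_hasDerivAt_eq_slope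
            (fun p => dx H x p + dp H x p * q' x) _ hlt
            (fun p _ => (hF p).continuousAt.continuousWithinAt) (fun p _ => hF p)
          have b1 : |dp (dx H) x ξ + dp (dp H) x ξ * q' x| < μ * ε / 4 := by
            refine hρb (x, ξ) ?_
            rw [Metric.mem_ball, Prod.dist_eq, max_lt_iff]
            refine ⟨hxρ, ?_⟩
            rw [Real.dist_eq, abs_lt]
            rw [abs_lt] at hxq hxP
            constructor <;> linarith [hξ.1, hξ.2]
          have b2 := Pp_identity hH hk (hdiff x).hasDerivAt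
          rw [dp_argmin hH hq] at hξe
          simp only [zero_mul, add_zero] at hξe
          set P := Pp H k x
          set P' := deriv (Pp H k) x
          set D := P - q x with hDdef
          set N := dp (dx H) x ξ + dp (dp H) x ξ * q' x with hN
          have b3 : dx H x P + dp H x P * q' x - dx H x (q x) = N * D := by
            rw [hξe]; field_simp
          have b4 : dp H x P * (P' - q' x) = f' x - N * D := by
            simp only [hf']
            linarith
          have b5 : |f' x| ≤ μ * ε / 4 * D := by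
            have c1 := h2 x hxR
            have c2 : f x ≤ μ₂ * D ^ 2 := hD2 x
            have c3 : f' x ^ 2 ≤ (μ * ε / 4 * D) ^ 2 := by
              calc f' x ^ 2 ≤ 4 * η * f x := c1
                _ ≤ 4 * η * (μ₂ * D ^ 2) := by gcongr
                _ = (μ * ε / 4 * D) ^ 2 := by rw [hη]; field_simp; norm_num
            exact abs_le_of_sq_le_sq c3 (by positivity)
          have b6 : dp H x P * |P' - q' x| ≤ μ * ε / 2 * D := by
            rw [← abs_of_pos hpos, ← abs_mul, b4]
            refine (abs_sub _ _).trans ?_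
            rw [abs_mul, abs_of_pos hD]
            have := mul_le_mul_of_nonneg_right b1.le hD.le
            linarith
          have b7 : μ * D * |P' - q' x| ≤ μ * ε / 2 * D :=
            (mul_le_mul_of_nonneg_right (hD3 x) (abs_nonneg _)).trans b6
          have b8 : μ * D * |P' - q' x| ≤ μ * D * (ε / 2) := by linarith
          have b9 := le_of_mul_le_mul_left b8 (by positivity)
          linarith
      have h6 : Tendsto (deriv (Pp H k)) (𝓝 x₀) (𝓝 (q' x₀)) := by
        have := key.add (hq'c.tendsto x₀)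
        simpa using this
      show Tendsto (deriv (Pp H k)) (𝓝 x₀) (𝓝 (deriv (Pp H k) x₀))
      rwa [(hDeq x₀ hx₀).deriv]
    · -- near a regular point
      have h1 : ∀ᶠ x in 𝓝 x₀, f x ≠ 0 := hfc.continuousAt.eventually_ne hx₀
      have h2 : ContinuousAt (fun x => -dx H x (Pp H k x) / dp H x (Pp H k x)) x₀ := by
        have hP := continuous_id.prodMk hPc
        exact (((cont_dx hH.c1).comp hP).neg).continuousAt.div
          ((cont_dp hH.c1).comp hP).continuousAt (hreg x₀ hx₀).ne'
      refine h2.congr ?_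
      filter_upwards [h1] with x hx
      exact (Pp_hasDerivAt hH hk (hreg x hx)).deriv.symm

end

end Pool.Agent.KS6_52.WK
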