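import Mathlib

/-!
# Weak KAM theory on the circle: definitions

All functions on the circle `ℝ / ℤ` are given by their periodic lifts.
-/

set_option autoImplicit false

namespace Pool.Agent.KS6_52.WK

open MeasureTheory Filter Topology Set

/-- Tonelli Hamiltonians on `𝕋¹ × ℝ` (given by their lifts): twice continuously differentiable,
with positive second derivative in `p`, superlinear in `p` uniformly in `x`. -/
structure Tonelli (H : ℝ → ℝ → ℝ) : Prop where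
  smooth : ContDiff ℝ 2 (fun q : ℝ × ℝ => H q.1 q.2)
  periodic : ∀ x p, H (x + 1) p = H x p
  convex : ∀ x p, 0 < deriv (deriv (H x)) p
  superlinear : ∀ A : ℝ, ∃ B : ℝ, ∀ x p, A * |p| - B ≤ H x p

/-- Viscosity solutions of `H(x, v') = k` on the circle. -/
def IsViscSol (H : ℝ → ℝ → ℝ) (k : ℝ) (v : ℝ → ℝ) : Prop :=
  Continuous v ∧ Function.Periodic v 1 ∧
    (∀ φ : ℝ → ℝ, ContDiff ℝ 1 φ → ∀ x, IsLocalMax (v - φ) x → H x (deriv φ x) ≤ k) ∧
    (∀ φ : ℝ → ℝ, ContDiff ℝ 1 φ → ∀ x, IsLocalMin (v - φ) x → k ≤ H x (deriv φ x))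

/-- The Hamiltonian `H_c(x, p) = H(x, p - c)`. -/
def shift (H : ℝ → ℝ → ℝ) (c : ℝ) : ℝ → ℝ → ℝ := fun x p => H x (p - c)

/-- The Lagrangian, the Legendre dual of `H`. -/
noncomputable def lag (H : ℝ → ℝ → ℝ) (x w : ℝ) : ℝ := ⨆ p : ℝ, (p * w - H x p)

/-- The curves of finite action from `x` to `y` in time `t`: absolutely continuous curves on the
circle, given by a lift which starts at `x`. -/
def IsCurve (H : ℝ → ℝ → ℝ) (x y t : ℝ) (γ : ℝ → ℝ) : Prop :=
  AbsolutelyContinuousOnInterval γ 0 t ∧ γ 0 = x ∧ (∃ n : ℤ, γ t = y + n) ∧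
    IntervalIntegrable (fun s => lag H (γ s) (deriv γ s)) volume 0 t

/-- The infimum of `∫ (L(γ, γ') + k) ds` over the curves from `x` to `y` in time `t`. -/
noncomputable def minAction (H : ℝ → ℝ → ℝ) (k x y t : ℝ) : EReal :=
  ⨅ (γ : ℝ → ℝ) (_ : IsCurve H x y t γ),
    ((∫ s in (0 : ℝ)..t, (lag H (γ s) (deriv γ s) + k) : ℝ) : EReal)

/-- The projected Aubry set (as a subset of `ℝ`, invariant under integer translations): the points
where the Peierls barrier vanishes. -/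
def aubry (H : ℝ → ℝ → ℝ) (k : ℝ) : Set ℝ := {x | liminf (minAction H k x x) atTop = 0}

/-- `sup_K |f| + sup_{x ≠ y ∈ K} |f(x) - f(y)| / d(x, y)`, with the distance of the circle. -/
noncomputable def lipNorm (K : Set ℝ) (f : ℝ → ℝ) : ENNReal :=
  (⨆ x ∈ K, ‖f x‖ₑ) + ⨆ x ∈ K, ⨆ y ∈ K, ⨆ _ : (x : UnitAddCircle) ≠ (y : UnitAddCircle),
    edist (f x) (f y) / edist (x : UnitAddCircle) (y : UnitAddCircle)

/-- The limit relation of the question: `‖Dv_c - Du‖_{Lip(π(𝒜_c))} → 0` as `c → 0`, for all choices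
of viscosity solutions `v_c` of `H_c(x, Dv_c) = α(c)`. -/
def LimitRelation (H : ℝ → ℝ → ℝ) (u : ℝ → ℝ) : Prop :=
  ∀ ε : ℝ, 0 < ε → ∃ δ : ℝ, 0 < δ ∧ ∀ (c α : ℝ) (v : ℝ → ℝ), |c| < δ →
    IsViscSol (shift H c) α v →
      lipNorm (aubry (shift H c) α) (deriv v - deriv u) ≤ ENNReal.ofReal ε

end Pool.Agent.KS6_52.WK
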