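import Pool.Agent.KS6_52.WK.Main
import Pool.Agent.KS6_52.WK.Crit

/-!
# The explicit criterion for solutions, and generic failure
-/

set_option autoImplicit false

namespace Pool.Agent.KS6_52.WK

open MeasureTheory Filter Topology Set

/-- the minimum of the Hamiltonian over a fibre -/
noncomputable def fibreMin (H : ℝ → ℝ → ℝ) (x : ℝ) : ℝ := ⨅ p : ℝ, H x p

lemma fibreMin_rev (H : ℝ → ℝ → ℝ) : fibreMin (rev H) = fibreMin H := by
  funext x
  exact (Equiv.neg ℝ).iInf_comp (g := fun p => H x p)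

lemma fibreMin_shift (H : ℝ → ℝ → ℝ) (c : ℝ) : fibreMin (shift H c) = fibreMin H := by
  funext x
  exact (Equiv.subRight c).iInf_comp (g := fun p => H x p)

section
variable {H : ℝ → ℝ → ℝ} (hH : Tonelli H)
include hH

lemma crit' {k : ℝ} (hk : Adm H k) : ContDiff ℝ 1 (Pp H k) ↔
    ∀ x, fibreMin H x = k → deriv (deriv (fibreMin H)) x = 0 := by
  obtain ⟨q, hq⟩ := exists_argmin hH
  rw [crit hH hq hk]
  have e1 : ∀ x, fibreMin H x = H x (q x) := fun x => iInf_eq hq x
  have e2 : ∀ x, deriv (deriv (fibreMin H)) x = _ := fun x => deriv2_e hH hq x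
  simp only [e1, e2]

/-- the solution is `C²` if and only if the second derivative of the fibrewise minimum vanishes at
the equilibria -/
theorem main2 {k : ℝ} {u : ℝ → ℝ} (hu : IsViscSol H k u) (hA : aubry H k = univ) :
    ContDiff ℝ 2 u ↔ ∀ x, fibreMin H x = k → deriv (deriv (fibreMin H)) x = 0 := by
  have hs0 : shift H 0 = H := by funext x p; simp [shift]
  have hu0 : IsViscSol (shift H 0) k u := by rw [hs0]; exact hu
  have hk := visc_adm hH hu0
  have halt := visc_alt hH hu0
  rw [hs0, hA] at halt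
  have hC2 : ∀ f : ℝ → ℝ, (∀ x, HasDerivAt u (f x) x) → (ContDiff ℝ 2 u ↔ ContDiff ℝ 1 f) := by
    intro f hf
    have e1 : deriv u = f := funext fun x => (hf x).deriv
    rw [show (2 : WithTop ℕ∞) = 1 + 1 by norm_num, contDiff_succ_iff_deriv, e1]
    constructor
    · exact fun h => h.2.2
    · exact fun h => ⟨fun x => (hf x).differentiableAt, by simp, h⟩
  rcases halt with ⟨h1, h2⟩ | ⟨h1, h2⟩ | ⟨⟨h1, h1'⟩, h2⟩
  · simp only [zero_add] at h2
    rw [hC2 _ h2, crit' hH hk]
  · simp only [zero_add] at h2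
    have hrevP : Pp (rev H) k = -Pm H k := by
      funext x
      rw [Pi.neg_apply]
      unfold Pm
      ring
    have e1 : ContDiff ℝ 1 (Pm H k) ↔ ContDiff ℝ 1 (Pp (rev H) k) := by
      rw [hrevP]
      exact ⟨fun h => h.neg, fun h => by simpa using h.neg⟩
    rw [hC2 _ h2, e1, crit' hH.rev hk.rev, fibreMin_rev]
  · exfalso
    have h3 : prim (Pm H k) 1 = prim (Pp H k) 1 := by
      congr 1
      exact funext fun x => (h2 x (mem_univ x)).1
    linarith

lemma adm_iff {k : ℝ} : Adm H k ↔ ∀ x, fibreMin H x ≤ k := by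
  obtain ⟨q, hq⟩ := exists_argmin hH
  have e1 : ∀ x, fibreMin H x = H x (q x) := fun x => iInf_eq hq x
  simp only [e1]
  constructor
  · intro h x
    obtain ⟨p, hp⟩ := h x
    exact (hq x p).trans hp
  · exact fun h x => ⟨q x, h x⟩

omit hH in
/-- the level of a classical solution is the critical one -/
lemma level_unique {c k : ℝ} {u : ℝ → ℝ} {u' : ℝ → ℝ} (hu : IsViscSol (shift H c) k u)
    (hd : ∀ x, HasDerivAt u (u' x) x) (hc : Continuous u')
    (hval : ∀ x, shift H c x (u' x) = k) (a : ℝ) :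
    (∃ v, IsViscSol (shift H c) a v) ↔ a = k := by
  constructor
  · rintro ⟨v, hv⟩
    have hu1 : ContDiff ℝ 1 u := by
      rw [contDiff_one_iff_deriv]
      have : deriv u = u' := funext fun x => (hd x).deriv
      exact ⟨fun x => (hd x).differentiableAt, by rwa [this]⟩
    have hwc : Continuous (v - u) := hv.1.sub hu.1
    have hwp : ∀ x, (v - u) (Int.fract x) = (v - u) x := fun x => by
      have h1 := per_fract (F := fun x _ => (v - u) x) (fun y _ => by
        simp only [Pi.sub_apply]
        rw [hv.2.1 y, hu.2.1 y]) x 0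
      exact h1
    have hfr : ∀ x : ℝ, Int.fract x ∈ Icc (0 : ℝ) 1 := fun x =>
      ⟨Int.fract_nonneg x, (Int.fract_lt_one x).le⟩
    obtain ⟨x₁, -, h1⟩ := (isCompact_Icc (a := (0 : ℝ)) (b := 1)).exists_isMaxOn
      ⟨0, by simp⟩ hwc.continuousOn
    obtain ⟨x₂, -, h2⟩ := (isCompact_Icc (a := (0 : ℝ)) (b := 1)).exists_isMinOn
      ⟨0, by simp⟩ hwc.continuousOn
    have h3 := hv.2.2.1 u hu1 x₁ (Eventually.of_forall fun y => by
      rw [← hwp y]; exact h1 (hfr y))
    have h4 := hv.2.2.2 u hu1 x₂ (Eventually.of_forall fun y => by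
      rw [← hwp y]; exact h2 (hfr y))
    rw [(hd _).deriv, hval] at h3 h4
    exact le_antisymm h4 h3
  · rintro rfl
    exact ⟨u, hu⟩

/-- every level above the fibrewise minima is exact for a shifted Hamiltonian, whose projected
Aubry set is full -/
theorem full {k : ℝ} (hk : ∀ x, fibreMin H x ≤ k) : ∃ (c : ℝ) (u : ℝ → ℝ),
    (∀ a, (∃ v, IsViscSol (shift H c) a v) ↔ a = k) ∧
    IsViscSol (shift H c) k u ∧
    (∀ w, IsViscSol (shift H c) k w → ∃ C : ℝ, ∀ x, w x = u x + C) ∧
    aubry (shift H c) k = univ := by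
  have hA := (adm_iff hH).2 hk
  have hPc := Pp_cont hH hA
  obtain ⟨hc1, hc2⟩ := classical hPc (Pp_per hH k) (H_Pp hH hA)
  refine ⟨-prim (Pp H k) 1, _, ?_, hc1, fun w hw => ?_,
    aubry_upper (hH.shift _) (adm_shift hA) (by rw [rot_shift hH hA]; ring)⟩
  · exact level_unique hc1 hc2 (continuous_const.add hPc) (fun x => by
      simp only [shift]
      rw [add_sub_cancel_left, H_Pp hH hA])
  · have h1 := visc_upper hH hw (by ring)
    refine ⟨w 0, fun x => ?_⟩
    have h2 : ∀ y, HasDerivAt (fun y => w y - (-prim (Pp H k) 1 * y + prim (Pp H k) y)) 0 y :=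
      fun y => ((h1 y).sub (hc2 y)).congr_deriv (by ring)
    have h3 := is_const_of_deriv_eq_zero (fun y => (h2 y).differentiableAt)
      (fun y => (h2 y).deriv) x 0
    simp only [mul_zero, prim_zero, add_zero, sub_zero] at h3
    linarith

end

/-- the pendulum -/
noncomputable def pend (x p : ℝ) : ℝ := p ^ 2 / 2 + Real.cos (2 * Real.pi * x)

lemma pend_tonelli : Tonelli pend where
  smooth := by unfold pend; fun_prop
  periodic x p := by
    unfold pend
    rw [mul_add, mul_one, Real.cos_add_two_pi]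
  convex x p := by
    have h1 : deriv (pend x) = fun q => q := by
      funext q
      have : HasDerivAt (pend x) q q := by
        have h := (((hasDerivAt_id q).pow 2).div_const 2).add_const (Real.cos (2 * Real.pi * x))
        refine h.congr_deriv ?_
        simp
      exact this.deriv
    rw [h1]
    simp
  superlinear A := by
    refine ⟨A ^ 2 / 2 + 1, fun x p => ?_⟩
    unfold pend
    have h1 := Real.neg_one_le_cos (2 * Real.pi * x)
    nlinarith [sq_nonneg (|p| - A), sq_abs p]

lemma fibreMin_pend : fibreMin pend = fun x => Real.cos (2 * Real.pi * x) := by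
  funext x
  unfold fibreMin pend
  refine le_antisymm ?_ (le_ciInf fun p => by nlinarith [sq_nonneg p])
  refine (ciInf_le ⟨Real.cos (2 * Real.pi * x), ?_⟩ 0).trans (by simp)
  rintro _ ⟨p, rfl⟩
  simp only
  nlinarith [sq_nonneg p]

lemma pend_max (x : ℝ) : fibreMin pend x ≤ fibreMin pend 0 := by
  rw [fibreMin_pend]
  simp [Real.cos_le_one]

lemma pend_second : deriv (deriv (fibreMin pend)) 0 ≠ 0 := by
  rw [fibreMin_pend]
  have hl : ∀ x : ℝ, HasDerivAt (fun x : ℝ => 2 * Real.pi * x) (2 * Real.pi) x := fun x => by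
    simpa using (hasDerivAt_id x).const_mul (2 * Real.pi)
  have h1 : deriv (fun x => Real.cos (2 * Real.pi * x)) =
      fun x => -Real.sin (2 * Real.pi * x) * (2 * Real.pi) := funext fun x => (hl x).cos.deriv
  have h2 : HasDerivAt (fun x => -Real.sin (2 * Real.pi * x) * (2 * Real.pi))
      (-(Real.cos (2 * Real.pi * 0) * (2 * Real.pi)) * (2 * Real.pi)) 0 :=
    ((hl 0).sin.neg).mul_const _
  rw [h1, h2.deriv]
  simp [Real.pi_ne_zero]

end Pool.Agent.KS6_52.WK
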