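import Pool.Agent.KS6_52.WK.Act
import Pool.Agent.KS6_52.WK.Conv

/-!
# The dichotomy in dimension one
-/

set_option autoImplicit false

namespace Pool.Agent.KS6_52.WK

open MeasureTheory Filter Topology Set

/-! ### The Lipschitz norm -/

lemma circle_le (z : ℝ) : ‖(z : UnitAddCircle)‖ ≤ |z| := by
  rw [UnitAddCircle.norm_eq]
  simpa using round_le z 0

lemma edist_circle (x y : ℝ) :
    edist (x : UnitAddCircle) (y : UnitAddCircle) =
      ENNReal.ofReal ‖((x - y : ℝ) : UnitAddCircle)‖ := by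
  rw [edist_dist, dist_eq_norm]
  rfl

lemma lipNorm_le {K : Set ℝ} {f : ℝ → ℝ} {a b : ℝ} (ha : 0 ≤ a) (hb : 0 ≤ b)
    (h1 : ∀ x ∈ K, |f x| ≤ a)
    (h2 : ∀ x ∈ K, ∀ y ∈ K, |f x - f y| ≤ b * ‖((x - y : ℝ) : UnitAddCircle)‖) :
    lipNorm K f ≤ ENNReal.ofReal (a + b) := by
  rw [ENNReal.ofReal_add ha hb]
  unfold lipNorm
  refine add_le_add ?_ ?_
  · refine iSup₂_le fun x hx => ?_
    rw [Real.enorm_eq_ofReal_abs]
    exact ENNReal.ofReal_le_ofReal (h1 x hx)
  · refine iSup₂_le fun x hx => iSup₂_le fun y hy => iSup_le fun _ => ?_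
    apply ENNReal.div_le_of_le_mul
    rw [edist_circle, edist_dist, Real.dist_eq, ← ENNReal.ofReal_mul hb]
    exact ENNReal.ofReal_le_ofReal (h2 x hx y hy)

lemma lipNorm_empty (f : ℝ → ℝ) : lipNorm ∅ f = 0 := by
  simp [lipNorm]

lemma lipNorm_neg (K : Set ℝ) (f : ℝ → ℝ) : lipNorm K (-f) = lipNorm K f := by
  unfold lipNorm
  simp only [Pi.neg_apply, enorm_neg, edist_neg_neg]

/-- periodic functions with small values and small derivative -/
lemma lipNorm_le_of_deriv {K : Set ℝ} {f f' : ℝ → ℝ} {a b : ℝ} (ha : 0 ≤ a) (hb : 0 ≤ b)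
    (hp : ∀ x, f (x + 1) = f x) (h1 : ∀ x, |f x| ≤ a) (hd : ∀ x, HasDerivAt f (f' x) x)
    (h2 : ∀ x, |f' x| ≤ b) : lipNorm K f ≤ ENNReal.ofReal (a + b) := by
  refine lipNorm_le ha hb (fun x _ => h1 x) (fun x _ y _ => ?_)
  rw [UnitAddCircle.norm_eq]
  have h3 : f (y + round (x - y)) = f y := by
    have : Function.Periodic f 1 := hp
    simpa using this.int_mul (round (x - y)) y
  have h4 := Convex.norm_image_sub_le_of_norm_deriv_le (f := f) (s := univ) (C := b)
    (fun z _ => (hd z).differentiableAt)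
    (fun z _ => by rw [(hd z).deriv]; exact h2 z) convex_univ
    (mem_univ (y + round (x - y))) (mem_univ x)
  rw [h3, Real.norm_eq_abs, Real.norm_eq_abs] at h4
  rwa [show x - y - (round (x - y) : ℝ) = x - (y + round (x - y)) by ring]

lemma lipNorm_univ {f : ℝ → ℝ} {ε : ℝ} (hε : 0 ≤ ε) (h : lipNorm univ f ≤ ENNReal.ofReal ε) :
    (∀ x, |f x| ≤ ε) ∧ ∀ x y, 0 < |x - y| → |x - y| < 1 → |f x - f y| ≤ ε * |x - y| := by
  unfold lipNorm at h
  have h1 := le_self_add.trans h
  have h2 := le_add_self.trans h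
  constructor
  · intro x
    have h3 := (le_iSup₂ (f := fun x (_ : x ∈ (univ : Set ℝ)) => ‖f x‖ₑ) x (mem_univ x)).trans h1
    simp only [Real.enorm_eq_ofReal_abs] at h3
    exact (ENNReal.ofReal_le_ofReal_iff hε).1 h3
  · intro x y hxy hxy1
    have hne : (x : UnitAddCircle) ≠ (y : UnitAddCircle) := by
      intro he
      have h4 : ‖((x - y : ℝ) : UnitAddCircle)‖ = 0 := by
        rw [AddCircle.coe_sub, he, sub_self, norm_zero]
      rw [UnitAddCircle.norm_eq, abs_eq_zero, sub_eq_zero] at h4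
      rw [h4] at hxy hxy1
      have h5 : |round (x - y)| < 1 := by exact_mod_cast hxy1
      have h6 : 0 < |round (x - y)| := by exact_mod_cast hxy
      omega
    have h3 : edist (f x) (f y) / edist (x : UnitAddCircle) (y : UnitAddCircle) ≤
        ENNReal.ofReal ε := by
      refine le_trans ?_ h2
      refine le_trans ?_ (le_iSup₂ x (mem_univ x))
      refine le_trans ?_ (le_iSup₂ y (mem_univ y))
      exact le_iSup (fun _ : (x : UnitAddCircle) ≠ (y : UnitAddCircle) =>
        edist (f x) (f y) / edist (x : UnitAddCircle) (y : UnitAddCircle)) hne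
    have h4 : edist (f x) (f y) ≤
        ENNReal.ofReal ε * edist (x : UnitAddCircle) (y : UnitAddCircle) := by
      rwa [ENNReal.div_le_iff_le_mul (Or.inl (by simpa using edist_pos.2 hne |>.ne'))
        (Or.inl (edist_ne_top _ _))] at h3
    rw [edist_circle, edist_dist, Real.dist_eq, ← ENNReal.ofReal_mul hε] at h4
    have h5 := (ENNReal.ofReal_le_ofReal_iff (by positivity)).1 h4
    refine h5.trans ?_
    gcongr
    exact circle_le _

/-! ### Shifted Hamiltonians -/

section
variable {H : ℝ → ℝ → ℝ} (hH : Tonelli H)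
include hH

lemma Tonelli.shift (c : ℝ) : Tonelli (shift H c) where
  smooth := hH.smooth.comp (contDiff_fst.prodMk (contDiff_snd.sub contDiff_const))
  periodic x p := hH.periodic x (p - c)
  convex x p := by
    have h1 : deriv (WK.shift H c x) = fun q => deriv (H x) (q - c) := by
      funext q
      exact deriv_comp_sub_const (f := H x) c q
    rw [h1, deriv_comp_sub_const (f := deriv (H x))]
    exact hH.convex x (p - c)
  superlinear A := by
    obtain ⟨B, hB⟩ := hH.superlinear A
    refine ⟨B + |A| * |c|, fun x p => ?_⟩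
    have h1 := hB x (p - c)
    have h2 : |A * (|p| - |p - c|)| ≤ |A| * |c| := by
      rw [abs_mul]
      have := abs_abs_sub_abs_le p (p - c)
      rw [sub_sub_cancel] at this
      exact mul_le_mul_of_nonneg_left this (abs_nonneg A)
    have h3 := le_abs_self (A * (|p| - |p - c|))
    simp only [WK.shift]
    linarith

omit hH in
lemma adm_shift {c k : ℝ} (hk : Adm H k) : Adm (shift H c) k := fun x => by
  obtain ⟨p, hp⟩ := hk x
  exact ⟨p + c, by simpa [shift] using hp⟩

lemma Pp_shift {c k : ℝ} (hk : Adm H k) (x : ℝ) : Pp (shift H c) k x = c + Pp H k x := by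
  apply le_antisymm
  · have h1 : H x (Pp (shift H c) k x - c) ≤ k := Pp_mem (hH.shift c) (adm_shift hk) x
    linarith [le_Pp hH h1]
  · refine le_Pp (hH.shift c) ?_
    have := Pp_mem hH hk x
    simpa [shift] using this

lemma Pm_shift {c k : ℝ} (hk : Adm H k) (x : ℝ) : Pm (shift H c) k x = c + Pm H k x := by
  apply le_antisymm
  · refine Pm_le (hH.shift c) ?_
    have := (H_Pm hH hk x).le
    simpa [shift] using this
  · have h1 : H x (Pm (shift H c) k x - c) ≤ k := (H_Pm (hH.shift c) (adm_shift hk) x).le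
    linarith [Pm_le hH h1]

omit hH in
lemma prim_const_add {g : ℝ → ℝ} (hg : Continuous g) (c : ℝ) :
    prim (fun x => c + g x) 1 = c + prim g 1 := by
  unfold prim
  rw [intervalIntegral.integral_add (by simp) (hg.intervalIntegrable _ _)]
  simp

lemma rot_shift {c k : ℝ} (hk : Adm H k) :
    prim (Pp (shift H c) k) 1 = c + prim (Pp H k) 1 := by
  rw [← prim_const_add (Pp_cont hH hk)]
  congr 1
  exact funext fun x => Pp_shift hH hk x

lemma rotm_shift {c k : ℝ} (hk : Adm H k) :
    prim (Pm (shift H c) k) 1 = c + prim (Pm H k) 1 := by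
  rw [← prim_const_add (Pm_cont hH hk)]
  congr 1
  exact funext fun x => Pm_shift hH hk x

/-! ### Rotation numbers -/

lemma rot_mono {k k' : ℝ} (hk : Adm H k) (h : k ≤ k') : prim (Pp H k) 1 ≤ prim (Pp H k') 1 :=
  intervalIntegral.integral_mono_on zero_le_one ((Pp_cont hH hk).intervalIntegrable _ _)
    ((Pp_cont hH (hk.mono h)).intervalIntegrable _ _) fun x _ => Pp_mono hH hk h x

lemma rot_strict {k k' : ℝ} (hk : Adm H k) (h : k < k') :
    prim (Pp H k) 1 < prim (Pp H k') 1 := by
  unfold prim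
  exact intervalIntegral.integral_lt_integral_of_continuousOn_of_le_of_exists_lt one_pos
    (Pp_cont hH hk).continuousOn (Pp_cont hH (hk.mono h.le)).continuousOn
    (fun x _ => (Pp_lt hH hk h x).le) ⟨0, by simp, Pp_lt hH hk h 0⟩

omit hH in
lemma rotm_rev (k : ℝ) : prim (Pp (rev H) k) 1 = -prim (Pm H k) 1 := by
  have : Pm H k = fun x => -Pp (rev H) k x := rfl
  rw [this]
  unfold prim
  rw [intervalIntegral.integral_neg, neg_neg]

lemma rotm_mono {k k' : ℝ} (hk : Adm H k) (h : k ≤ k') : prim (Pm H k') 1 ≤ prim (Pm H k) 1 := by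
  have := rot_mono hH.rev hk.rev h
  rw [rotm_rev, rotm_rev] at this
  linarith

lemma rotm_le_rot {k : ℝ} (hk : Adm H k) : prim (Pm H k) 1 ≤ prim (Pp H k) 1 :=
  intervalIntegral.integral_mono_on zero_le_one ((Pm_cont hH hk).intervalIntegrable _ _)
    ((Pp_cont hH hk).intervalIntegrable _ _) fun x _ => Pm_le_Pp hH hk x

lemma eq_of_rot_eq {k : ℝ} (hk : Adm H k) (h : prim (Pm H k) 1 = prim (Pp H k) 1) (x : ℝ) :
    Pm H k x = Pp H k x := by
  by_contra hne
  have hlt : Pm H k x < Pp H k x := lt_of_le_of_ne (Pm_le_Pp hH hk x) hne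
  have e1 := per_fract (F := fun x _ => Pm H k x) (fun y _ => Pm_per hH k y) x 0
  have e2 := per_fract (F := fun x _ => Pp H k x) (fun y _ => Pp_per hH k y) x 0
  rw [← e1, ← e2] at hlt
  have : prim (Pm H k) 1 < prim (Pp H k) 1 :=
    intervalIntegral.integral_lt_integral_of_continuousOn_of_le_of_exists_lt one_pos
      (Pm_cont hH hk).continuousOn (Pp_cont hH hk).continuousOn
      (fun x _ => Pm_le_Pp hH hk x)
      ⟨Int.fract x, ⟨Int.fract_nonneg x, (Int.fract_lt_one x).le⟩, hlt⟩
  linarith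

/-- small rotation forces the level to be close to the exact one -/
lemma level_close {k : ℝ} (hk : Adm H k) (h0 : prim (Pp H k) 1 = 0) {η : ℝ} (hη : 0 < η) :
    ∃ δ, 0 < δ ∧ ∀ α, Adm H α → |prim (Pp H α) 1| < δ → |α - k| < η := by
  have hup : 0 < prim (Pp H (k + η)) 1 := by
    rw [← h0]; exact rot_strict hH hk (by linarith)
  by_cases hlow : Adm H (k - η)
  · have hlo : prim (Pp H (k - η)) 1 < 0 := by
      rw [← h0]; exact rot_strict hH hlow (by linarith)
    refine ⟨min (prim (Pp H (k + η)) 1) (-prim (Pp H (k - η)) 1), lt_min hup (by linarith),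
      fun α hα h => ?_⟩
    have h1 := abs_lt.1 (h.trans_le (min_le_left _ _))
    have h2 := abs_lt.1 (h.trans_le (min_le_right _ _))
    rw [abs_lt]
    constructor
    · by_contra hcon
      have := rot_mono hH hα (k' := k - η) (by linarith)
      linarith
    · by_contra hcon
      have := rot_mono hH (hk.mono (k' := k + η) (by linarith)) (k' := α) (by linarith)
      linarith
  · refine ⟨prim (Pp H (k + η)) 1, hup, fun α hα h => ?_⟩
    have h1 := abs_lt.1 h
    rw [abs_lt]
    constructor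
    · by_contra hcon
      exact hlow (hα.mono (by linarith))
    · by_contra hcon
      have := rot_mono hH (hk.mono (k' := k + η) (by linarith)) (k' := α) (by linarith)
      linarith

/-- the estimate along the upper branch -/
lemma upper_est {k : ℝ} (hk : Adm H k) (h0 : prim (Pp H k) 1 = 0)
    (hC : ContDiff ℝ 1 (Pp H k)) {ε : ℝ} (hε : 0 < ε) :
    ∃ δ, 0 < δ ∧ ∀ (c α : ℝ) (v : ℝ → ℝ) (K : Set ℝ), |c| < δ → Adm H α →
      (α = k ∨ SAdm H α) → -c = prim (Pp H α) 1 → (∀ x, HasDerivAt v (c + Pp H α x) x) →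
      lipNorm K (deriv v - Pp H k) ≤ ENNReal.ofReal ε := by
  obtain ⟨δ₁, hδ₁, hc1⟩ := Pp_unif hH hk (ε := ε / 3) (by positivity)
  obtain ⟨δ₂, hδ₂, hc2⟩ := Pp_conv hH hk hC (ε := ε / 3) (by positivity)
  obtain ⟨δ₃, hδ₃, hc3⟩ := level_close hH hk h0 (η := min δ₁ δ₂) (by positivity)
  refine ⟨min δ₃ (ε / 3), by positivity, fun c α v K hc hα hor hrot hv => ?_⟩
  have hcδ : |c| < δ₃ := hc.trans_le (min_le_left _ _)
  have hcε : |c| < ε / 3 := hc.trans_le (min_le_right _ _)
  have hlev := hc3 α hα (by rw [← hrot, abs_neg]; exact hcδ)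
  have hl1 : |α - k| < δ₁ := hlev.trans_le (min_le_left _ _)
  have hl2 : |α - k| < δ₂ := hlev.trans_le (min_le_right _ _)
  have hdv : deriv v - Pp H k = fun x => c + (Pp H α x - Pp H k x) := by
    funext x
    rw [Pi.sub_apply, (hv x).deriv]
    ring
  rw [hdv]
  have hε3 : ε = (ε / 3 + ε / 3) + ε / 3 := by ring
  rcases hor with rfl | hS
  · rw [hε3]
    refine lipNorm_le_of_deriv (f' := fun _ => 0) (by positivity) (by positivity)
      (fun x => by simp) (fun x => ?_) (fun x => ?_) (fun x => by simp; positivity)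
    · simp only [sub_self, add_zero]
      linarith
    · simp only [sub_self, add_zero]
      exact hasDerivAt_const x c
  · rw [hε3]
    have hkd : ∀ y, HasDerivAt (Pp H k) (deriv (Pp H k) y) y := fun y =>
      ((contDiff_one_iff_deriv.1 hC).1 y).hasDerivAt
    have hαd : ∀ y, HasDerivAt (Pp H α) (deriv (Pp H α) y) y := fun y =>
      ((contDiff_one_iff_deriv.1 (Pp_c1 hH hS)).1 y).hasDerivAt
    refine lipNorm_le_of_deriv (f' := fun x => deriv (Pp H α) x - deriv (Pp H k) x)
      (by positivity) (by positivity)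
      (fun x => by rw [Pp_per hH, Pp_per hH]) (fun x => ?_) (fun x => ?_)
      (fun x => hc2 α hS hl2 x)
    · exact (abs_add_le _ _).trans (add_le_add hcε.le (hc1 α hα hl1 x))
    · exact ((hαd x).sub (hkd x)).const_add c

/-- the alternative for solutions of the shifted equations -/
def Alt (H : ℝ → ℝ → ℝ) (c α : ℝ) (v : ℝ → ℝ) (K : Set ℝ) : Prop :=
  (-c = prim (Pp H α) 1 ∧ ∀ x, HasDerivAt v (c + Pp H α x) x) ∨
  (-c = prim (Pm H α) 1 ∧ ∀ x, HasDerivAt v (c + Pm H α x) x) ∨
  ((prim (Pm H α) 1 < -c ∧ -c < prim (Pp H α) 1) ∧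
    ∀ x ∈ K, Pm H α x = Pp H α x ∧ HasDerivAt v (c + Pp H α x) x)

lemma visc_alt {c α : ℝ} {v : ℝ → ℝ} (hv : IsViscSol (shift H c) α v) :
    Alt H c α v (aubry (shift H c) α) := by
  have hk := visc_adm hH hv
  rcases (rot_le hH hv).eq_or_lt with h1 | h1
  · exact Or.inl ⟨h1, visc_upper hH hv h1⟩
  rcases (le_rot hH hv).eq_or_lt with h2 | h2
  · exact Or.inr (Or.inl ⟨h2.symm, visc_lower hH hv h2.symm⟩)
  refine Or.inr (Or.inr ⟨⟨h2, h1⟩, fun x hx => ?_⟩)
  have h3 := aubry_meet (hH.shift c) (adm_shift hk) hx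
    (by rw [rotm_shift hH hk]; linarith) (by rw [rot_shift hH hk]; linarith)
  rw [Pm_shift hH hk, Pp_shift hH hk] at h3
  have h4 : Pm H α x = Pp H α x := by linarith
  exact ⟨h4, visc_meet hH hv h4⟩

omit hH in
lemma alt_rev {c α : ℝ} {v : ℝ → ℝ} {K : Set ℝ} (h : Alt H c α v K) :
    Alt (rev H) (-c) α (-v) K := by
  have e1 : ∀ x, Pp (rev H) α x = -Pm H α x := fun x => by unfold Pm; ring
  have e2 : ∀ x, Pm (rev H) α x = -Pp H α x := fun x => by unfold Pm; rw [rev_rev]
  have r1 := rotm_rev (H := H) α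
  have r2 : prim (Pm (rev H) α) 1 = -prim (Pp H α) 1 := by
    have := rotm_rev (H := rev H) α
    rw [rev_rev] at this
    linarith
  rcases h with ⟨h1, h2⟩ | ⟨h1, h2⟩ | ⟨⟨h1, h1'⟩, h2⟩
  · refine Or.inr (Or.inl ⟨by rw [r2, ← h1], fun x => ?_⟩)
    rw [e2]
    exact ((h2 x).neg).congr_deriv (by ring)
  · refine Or.inl ⟨by rw [r1, ← h1], fun x => ?_⟩
    rw [e1]
    exact ((h2 x).neg).congr_deriv (by ring)
  · refine Or.inr (Or.inr ⟨⟨by rw [r2]; linarith, by rw [r1]; linarith⟩, fun x hx => ?_⟩)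
    obtain ⟨h3, h4⟩ := h2 x hx
    refine ⟨by rw [e1, e2, h3], ?_⟩
    rw [e1, h3]
    exact (h4.neg).congr_deriv (by ring)

/-- the limit relation for the solution which follows the upper branch, when this branch is `C¹` -/
lemma backward {k : ℝ} (hk : Adm H k) (h0 : prim (Pp H k) 1 = 0)
    (hC : ContDiff ℝ 1 (Pp H k)) {ε : ℝ} (hε : 0 < ε) :
    ∃ δ, 0 < δ ∧ ∀ (c α : ℝ) (v : ℝ → ℝ) (K : Set ℝ), |c| < δ → Adm H α → Alt H c α v K →
      lipNorm K (deriv v - Pp H k) ≤ ENNReal.ofReal ε := by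
  obtain ⟨δ₁, hδ₁, hup⟩ := upper_est hH hk h0 hC hε
  by_cases hlow : ∃ k₁ < k, Adm H k₁
  · obtain ⟨k₁, hk₁, hA₁⟩ := hlow
    have hneg : prim (Pp H k₁) 1 < 0 := by rw [← h0]; exact rot_strict hH hA₁ hk₁
    refine ⟨min δ₁ (-prim (Pp H k₁) 1), lt_min hδ₁ (by linarith), fun c α v K hc hα h => ?_⟩
    have hc1 : |c| < δ₁ := hc.trans_le (min_le_left _ _)
    have hc2 := abs_lt.1 (hc.trans_le (min_le_right _ _))
    have hup' : -c ≤ prim (Pp H α) 1 := by
      rcases h with ⟨h1, -⟩ | ⟨h1, -⟩ | ⟨⟨h1, h1'⟩, -⟩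
      · exact h1.le
      · exact h1.le.trans (rotm_le_rot hH hα)
      · exact h1'.le
    have hαk : k₁ < α := by
      by_contra hcon
      have := rot_mono hH hα (not_lt.1 hcon)
      linarith
    have hS : SAdm H α := hA₁.sadm hαk
    rcases h with ⟨h1, h2⟩ | ⟨h1, h2⟩ | ⟨⟨h1, h1'⟩, h2⟩
    · exact hup c α v K hc1 hα (Or.inr hS) h1 h2
    · exfalso
      have e1 := rotm_mono hH hA₁ hαk.le
      have e2 := rotm_le_rot hH hA₁
      linarith
    · have hK : K = ∅ := by
        rw [eq_empty_iff_forall_notMem]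
        intro x hx
        obtain ⟨p, hp⟩ := hS x
        exact absurd hp (not_lt.2 (eq_of_sadm_not hH hα (h2 x hx).1 p))
      rw [hK, lipNorm_empty]
      exact zero_le
  · push Not at hlow
    have hge : ∀ α, Adm H α → k ≤ α := fun α hα => by
      by_contra hcon
      exact hlow α (not_le.1 hcon) hα
    have hor : ∀ α, Adm H α → α = k ∨ SAdm H α := fun α hα => by
      rcases (hge α hα).eq_or_lt with h | h
      · exact Or.inl h.symm
      · exact Or.inr (hk.sadm h)
    have hm0 : prim (Pm H k) 1 ≤ 0 := by rw [← h0]; exact rotm_le_rot hH hk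
    obtain ⟨δ₂, hδ₂, hlo⟩ : ∃ δ₂, 0 < δ₂ ∧ ∀ (c α : ℝ) (v : ℝ → ℝ) (K : Set ℝ), |c| < δ₂ →
        Adm H α → -c = prim (Pm H α) 1 → (∀ x, HasDerivAt v (c + Pm H α x) x) →
        lipNorm K (deriv v - Pp H k) ≤ ENNReal.ofReal ε := by
      rcases hm0.eq_or_lt with hm | hm
      · have heq := eq_of_rot_eq hH hk (hm.trans h0.symm)
        have e1 : Pp (rev H) k = -Pp H k := by
          funext x
          rw [Pi.neg_apply, ← heq x]
          unfold Pm
          ring
        obtain ⟨δ₂, hδ₂, hup₂⟩ := upper_est hH.rev hk.rev (by rw [rotm_rev, hm, neg_zero])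
          (by rw [e1]; exact hC.neg) hε
        refine ⟨δ₂, hδ₂, fun c α v K hc hα h1 h2 => ?_⟩
        have h3 := hup₂ (-c) α (-v) K (by rwa [abs_neg]) hα.rev
          ((hor α hα).imp id SAdm.rev) (by rw [rotm_rev, ← h1]) (fun x => by
            have e2 : Pp (rev H) α x = -Pm H α x := by unfold Pm; ring
            rw [e2]
            exact ((h2 x).neg).congr_deriv (by ring))
        have e3 : deriv (-v) - Pp (rev H) k = -(deriv v - Pp H k) := by
          rw [e1]
          funext x
          simp only [Pi.sub_apply, Pi.neg_apply]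
          rw [show deriv (-v) x = -deriv v x from deriv.neg]
          ring
        rwa [e3, lipNorm_neg] at h3
      · refine ⟨-prim (Pm H k) 1, by linarith, fun c α v K hc hα h1 h2 => ?_⟩
        exfalso
        have := rotm_mono hH hk (hge α hα)
        have := abs_lt.1 hc
        linarith
    refine ⟨min (min δ₁ δ₂) ε, by positivity, fun c α v K hc hα h => ?_⟩
    have hc1 : |c| < δ₁ := hc.trans_le ((min_le_left _ _).trans (min_le_left _ _))
    have hc2 : |c| < δ₂ := hc.trans_le ((min_le_left _ _).trans (min_le_right _ _))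
    have hc3 : |c| < ε := hc.trans_le (min_le_right _ _)
    rcases h with ⟨h1, h2⟩ | ⟨h1, h2⟩ | ⟨⟨h1, h1'⟩, h2⟩
    · exact hup c α v K hc1 hα (hor α hα) h1 h2
    · exact hlo c α v K hc2 hα h1 h2
    · rcases K.eq_empty_or_nonempty with hK | ⟨x₀, hx₀⟩
      · rw [hK, lipNorm_empty]
        exact zero_le
      · have hαk : α = k := by
          obtain ⟨p, hp⟩ := hk x₀
          exact le_antisymm ((eq_of_sadm_not hH hα (h2 x₀ hx₀).1 p).trans hp) (hge α hα)
        rw [← add_zero ε]
        subst hαk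
        have e : ∀ x ∈ K, (deriv v - Pp H α) x = c := fun x hx => by
          rw [Pi.sub_apply, (h2 x hx).2.deriv]
          ring
        refine lipNorm_le hε.le le_rfl (fun x hx => by rw [e x hx]; exact hc3.le)
          (fun x hx y hy => by rw [e x hx, e y hy]; simp)

omit hH in
/-- conversely, the limit relation forces regularity -/
lemma forward {u f : ℝ → ℝ} (hrel : LimitRelation H u) (hu : deriv u = f)
    (happ : ∀ δ, 0 < δ → ∃ (c α : ℝ) (v : ℝ → ℝ), |c| < δ ∧ IsViscSol (shift H c) α v ∧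
      aubry (shift H c) α = univ ∧ ContDiff ℝ 1 (deriv v)) : ContDiff ℝ 1 f := by
  have h1 : ∀ j : ℕ, ∃ F : ℝ → ℝ, ContDiff ℝ 1 F ∧
      lipNorm univ (F - f) ≤ ENNReal.ofReal (1 / ((j : ℝ) + 1)) := by
    intro j
    obtain ⟨δ, hδ, h⟩ := hrel (1 / ((j : ℝ) + 1)) (by positivity)
    obtain ⟨c, α, v, hc, hv, hA, hvC⟩ := happ δ hδ
    refine ⟨deriv v, hvC, ?_⟩
    have := h c α v hc hv
    rwa [hA, hu] at this
  choose F hF hlip using h1
  have h2 := fun j => lipNorm_univ (f := F j - f) (ε := 1 / ((j : ℝ) + 1)) (by positivity) (hlip j)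
  exact c1_of_lip (e := fun j : ℕ => 1 / ((j : ℝ) + 1)) tendsto_one_div_add_atTop_nhds_zero_nat hF
    (fun j x => (h2 j).1 x) (fun j x y hx hy => (h2 j).2 x y hx hy)

omit hH in
/-- classical solutions along an exact branch -/
lemma classical {g : ℝ → ℝ} {α : ℝ} (hg : Continuous g) (hp : ∀ x, g (x + 1) = g x)
    (hα : ∀ x, H x (g x) = α) :
    IsViscSol (shift H (-prim g 1)) α (fun x => -prim g 1 * x + prim g x) ∧
      ∀ x, HasDerivAt (fun x => -prim g 1 * x + prim g x) (-prim g 1 + g x) x := by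
  have hd : ∀ x, HasDerivAt (fun x => -prim g 1 * x + prim g x) (-prim g 1 + g x) x := fun x => by
    have h3 := ((hasDerivAt_id x).const_mul (-prim g 1)).add (prim_hasDerivAt hg x)
    simp only [mul_one] at h3
    exact h3
  have hval : ∀ x, shift H (-prim g 1) x (-prim g 1 + g x) = α := fun x => by
    simp only [shift]
    rw [add_sub_cancel_left, hα]
  refine ⟨⟨continuous_iff_continuousAt.2 fun x => (hd x).continuousAt, fun x => ?_, ?_, ?_⟩, hd⟩
  · simp only
    rw [prim_add_one hg hp]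
    ring
  · intro φ hφ x hx
    have h1 := hx.hasDerivAt_eq_zero ((hd x).sub (((contDiff_one_iff_deriv.1 hφ).1 x).hasDerivAt))
    rw [show deriv φ x = -prim g 1 + g x by linarith, hval]
  · intro φ hφ x hx
    have h1 := hx.hasDerivAt_eq_zero ((hd x).sub (((contDiff_one_iff_deriv.1 hφ).1 x).hasDerivAt))
    rw [show deriv φ x = -prim g 1 + g x by linarith, hval]

/-- **The dichotomy**: in dimension one, for a Tonelli Hamiltonian whose projected Aubry set is the
whole circle, the limit relation holds if and only if the solution is of class `C²`. -/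
theorem main {k : ℝ} {u : ℝ → ℝ} (hu : IsViscSol H k u) (hA : aubry H k = univ) :
    LimitRelation H u ↔ ContDiff ℝ 2 u := by
  have hs0 : shift H 0 = H := by funext x p; simp [shift]
  have hu0 : IsViscSol (shift H 0) k u := by rw [hs0]; exact hu
  have hk := visc_adm hH hu0
  have halt := visc_alt hH hu0
  rw [hs0, hA] at halt
  have hC2 : ∀ f : ℝ → ℝ, (∀ x, HasDerivAt u (f x) x) → (ContDiff ℝ 2 u ↔ ContDiff ℝ 1 f) := by
    intro f hf
    have e1 : deriv u = f := funext fun x => (hf x).deriv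
    rw [show (2 : WithTop ℕ∞) = 1 + 1 by norm_num, contDiff_succ_iff_deriv, e1]
    constructor
    · exact fun h => h.2.2
    · exact fun h => ⟨fun x => (hf x).differentiableAt, by simp, h⟩
  rcases halt with ⟨h1, h2⟩ | ⟨h1, h2⟩ | ⟨⟨h1, h1'⟩, h2⟩
  · -- upper branch
    rw [neg_zero] at h1
    simp only [zero_add] at h2
    rw [hC2 _ h2]
    have hdu : deriv u = Pp H k := funext fun x => (h2 x).deriv
    constructor
    · intro hrel
      refine forward hrel hdu (fun δ hδ => ?_)
      obtain ⟨η, hη, hun⟩ := Pp_unif hH hk (ε := δ / 2) (by positivity)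
      set α := k + η / 2 with hα
      have hS : SAdm H α := hk.sadm (by rw [hα]; linarith)
      have hclose := hun α hS.adm (by rw [hα, add_sub_cancel_left, abs_of_pos (by positivity)]
                                      linarith)
      have hrot := prim_close (Pp_cont hH hS.adm) (Pp_cont hH hk) hclose
      rw [← h1, sub_zero] at hrot
      obtain ⟨hc1, hc2⟩ := classical (Pp_cont hH hS.adm) (Pp_per hH α) (H_Pp hH hS.adm)
      refine ⟨_, α, _, ?_, hc1, aubry_upper (hH.shift _) (adm_shift hS.adm) ?_, ?_⟩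
      · rw [abs_neg]; linarith
      · rw [rot_shift hH hS.adm]; ring
      · have : deriv (fun x => -prim (Pp H α) 1 * x + prim (Pp H α) x) =
            fun x => -prim (Pp H α) 1 + Pp H α x := funext fun x => (hc2 x).deriv
        rw [this]
        exact contDiff_const.add (Pp_c1 hH hS)
    · intro hC ε hε
      obtain ⟨δ, hδ, h⟩ := backward hH hk h1.symm hC hε
      refine ⟨δ, hδ, fun c α v hc hv => ?_⟩
      rw [hdu]
      exact h c α v _ hc (visc_adm hH hv) (visc_alt hH hv)
  · -- lower branch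
    rw [neg_zero] at h1
    simp only [zero_add] at h2
    rw [hC2 _ h2]
    have hdu : deriv u = Pm H k := funext fun x => (h2 x).deriv
    constructor
    · intro hrel
      refine forward hrel hdu (fun δ hδ => ?_)
      obtain ⟨η, hη, hun⟩ := Pm_unif hH hk (ε := δ / 2) (by positivity)
      set α := k + η / 2 with hα
      have hS : SAdm H α := hk.sadm (by rw [hα]; linarith)
      have hclose := hun α hS.adm (by rw [hα, add_sub_cancel_left, abs_of_pos (by positivity)]
                                      linarith)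
      have hrot := prim_close (Pm_cont hH hS.adm) (Pm_cont hH hk) hclose
      rw [← h1, sub_zero] at hrot
      obtain ⟨hc1, hc2⟩ := classical (Pm_cont hH hS.adm) (Pm_per hH α) (H_Pm hH hS.adm)
      refine ⟨_, α, _, ?_, hc1, aubry_lower (hH.shift _) (adm_shift hS.adm) ?_, ?_⟩
      · rw [abs_neg]; linarith
      · rw [rotm_shift hH hS.adm]; ring
      · have : deriv (fun x => -prim (Pm H α) 1 * x + prim (Pm H α) x) =
            fun x => -prim (Pm H α) 1 + Pm H α x := funext fun x => (hc2 x).deriv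
        rw [this]
        exact contDiff_const.add (Pm_c1 hH hS)
    · intro hC ε hε
      have hrevP : Pp (rev H) k = -Pm H k := by
        funext x
        rw [Pi.neg_apply]
        unfold Pm
        ring
      obtain ⟨δ, hδ, h⟩ := backward hH.rev hk.rev (by rw [rotm_rev, ← h1, neg_zero])
        (by rw [hrevP]; exact hC.neg) hε
      refine ⟨δ, hδ, fun c α v hc hv => ?_⟩
      have h3 := h (-c) α (-v) _ (by rwa [abs_neg]) (visc_adm hH hv).rev (alt_rev (visc_alt hH hv))
      have e3 : deriv (-v) - Pp (rev H) k = -(deriv v - deriv u) := by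
        rw [hrevP, hdu]
        funext x
        simp only [Pi.sub_apply, Pi.neg_apply]
        rw [show deriv (-v) x = -deriv v x from deriv.neg]
        ring
      rwa [e3, lipNorm_neg] at h3
  · exfalso
    have h3 : prim (Pm H k) 1 = prim (Pp H k) 1 := by
      congr 1
      exact funext fun x => (h2 x (mem_univ x)).1
    linarith

end

end Pool.Agent.KS6_52.WK
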