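import Pool.Agent.KS6_52.WK.Defs

/-!
# Functions of two real variables: partial derivatives
-/

set_option autoImplicit false

namespace Pool.Agent.KS6_52.WK

open MeasureTheory Filter Topology Set

noncomputable def dx (G : ℝ → ℝ → ℝ) (x p : ℝ) : ℝ := deriv (fun y => G y p) x
noncomputable def dp (G : ℝ → ℝ → ℝ) (x p : ℝ) : ℝ := deriv (G x) p

/-- the uncurried function -/
def unc (G : ℝ → ℝ → ℝ) : ℝ × ℝ → ℝ := fun q => G q.1 q.2

variable {G : ℝ → ℝ → ℝ}

lemma hx (hG : ContDiff ℝ 1 (unc G)) (x p : ℝ) :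
    HasDerivAt (fun y => G y p) (fderiv ℝ (unc G) (x, p) (1, 0)) x := by
  have h1 := (hG.differentiable one_ne_zero (x, p)).hasFDerivAt
  have h2 : HasDerivAt (fun y : ℝ => (y, p)) ((1 : ℝ), (0 : ℝ)) x :=
    (hasDerivAt_id x).prodMk (hasDerivAt_const x p)
  exact h1.comp_hasDerivAt x h2

lemma hp (hG : ContDiff ℝ 1 (unc G)) (x p : ℝ) :
    HasDerivAt (G x) (fderiv ℝ (unc G) (x, p) (0, 1)) p := by
  have h1 := (hG.differentiable one_ne_zero (x, p)).hasFDerivAt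
  have h2 : HasDerivAt (fun y : ℝ => (x, y)) ((0 : ℝ), (1 : ℝ)) p :=
    (hasDerivAt_const p x).prodMk (hasDerivAt_id p)
  exact h1.comp_hasDerivAt p h2

lemma dx_eq (hG : ContDiff ℝ 1 (unc G)) (x p : ℝ) :
    dx G x p = fderiv ℝ (unc G) (x, p) (1, 0) := (hx hG x p).deriv

lemma dp_eq (hG : ContDiff ℝ 1 (unc G)) (x p : ℝ) :
    dp G x p = fderiv ℝ (unc G) (x, p) (0, 1) := (hp hG x p).deriv

lemma hasDx (hG : ContDiff ℝ 1 (unc G)) (x p : ℝ) :
    HasDerivAt (fun y => G y p) (dx G x p) x := by rw [dx_eq hG]; exact hx hG x p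

lemma hasDp (hG : ContDiff ℝ 1 (unc G)) (x p : ℝ) : HasDerivAt (G x) (dp G x p) p := by
  rw [dp_eq hG]; exact hp hG x p

lemma chain (hG : ContDiff ℝ 1 (unc G)) {P : ℝ → ℝ} {x P' : ℝ} (hP : HasDerivAt P P' x) :
    HasDerivAt (fun y => G y (P y)) (dx G x (P x) + dp G x (P x) * P') x := by
  have h1 := (hG.differentiable one_ne_zero (x, P x)).hasFDerivAt
  have h2 : HasDerivAt (fun y : ℝ => (y, P y)) ((1 : ℝ), P') x := (hasDerivAt_id x).prodMk hP
  have h3 := h1.comp_hasDerivAt x h2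
  rw [dx_eq hG, dp_eq hG]
  have e : ((1 : ℝ), P') = (1, 0) + P' • ((0 : ℝ), (1 : ℝ)) := by simp
  rw [e, map_add, map_smul, smul_eq_mul, mul_comm] at h3
  exact h3

lemma unc_dx (hG : ContDiff ℝ 1 (unc G)) : unc (dx G) = fun q => fderiv ℝ (unc G) q (1, 0) :=
  funext fun q => dx_eq hG q.1 q.2

lemma unc_dp (hG : ContDiff ℝ 1 (unc G)) : unc (dp G) = fun q => fderiv ℝ (unc G) q (0, 1) :=
  funext fun q => dp_eq hG q.1 q.2

lemma cont_dx (hG : ContDiff ℝ 1 (unc G)) : Continuous (unc (dx G)) := by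
  rw [unc_dx hG]
  exact (hG.continuous_fderiv one_ne_zero).clm_apply continuous_const

lemma cont_dp (hG : ContDiff ℝ 1 (unc G)) : Continuous (unc (dp G)) := by
  rw [unc_dp hG]
  exact (hG.continuous_fderiv one_ne_zero).clm_apply continuous_const

lemma c1_dx (hG : ContDiff ℝ 2 (unc G)) : ContDiff ℝ 1 (unc (dx G)) := by
  rw [unc_dx (hG.of_le (by norm_num))]
  exact (hG.fderiv_right (m := 1) (by norm_num)).clm_apply contDiff_const

lemma c1_dp (hG : ContDiff ℝ 2 (unc G)) : ContDiff ℝ 1 (unc (dp G)) := by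
  rw [unc_dp (hG.of_le (by norm_num))]
  exact (hG.fderiv_right (m := 1) (by norm_num)).clm_apply contDiff_const

/-- the mixed derivatives coincide -/
lemma mixed (hG : ContDiff ℝ 2 (unc G)) (x p : ℝ) : dp (dx G) x p = dx (dp G) x p := by
  have h1 : ContDiff ℝ 1 (unc G) := hG.of_le (by norm_num)
  have h2 : DifferentiableAt ℝ (fderiv ℝ (unc G)) (x, p) :=
    (hG.fderiv_right (m := 1) (by norm_num)).differentiable one_ne_zero _
  rw [dp_eq (c1_dx hG), dx_eq (c1_dp hG), unc_dx h1, unc_dp h1]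
  have e1 : ∀ a : ℝ × ℝ, fderiv ℝ (fun q => fderiv ℝ (unc G) q a) (x, p) =
      (fderiv ℝ (fderiv ℝ (unc G)) (x, p)).flip a := by
    intro a
    ext <;> simp [fderiv_clm_apply h2 (differentiableAt_const a)]
  rw [e1, e1]
  simp only [ContinuousLinearMap.flip_apply]
  exact (hG.contDiffAt.isSymmSndFDerivAt (by simp)) _ _

end Pool.Agent.KS6_52.WK
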