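import Pool.Agent.KS6_52.WK.Branch

/-!
# Viscosity solutions and the two branches
-/

set_option autoImplicit false

namespace Pool.Agent.KS6_52.WK

open MeasureTheory Filter Topology Set

/-- primitives of continuous functions -/
noncomputable def prim (g : ℝ → ℝ) (x : ℝ) : ℝ := ∫ t in (0 : ℝ)..x, g t

lemma prim_hasDerivAt {g : ℝ → ℝ} (hg : Continuous g) (x : ℝ) : HasDerivAt (prim g) (g x) x :=
  intervalIntegral.integral_hasDerivAt_right (hg.intervalIntegrable _ _)
    (hg.stronglyMeasurableAtFilter _ _) hg.continuousAt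

lemma prim_c1 {g : ℝ → ℝ} (hg : Continuous g) : ContDiff ℝ 1 (prim g) := by
  rw [contDiff_one_iff_deriv]
  refine ⟨fun x => (prim_hasDerivAt hg x).differentiableAt, ?_⟩
  have : deriv (prim g) = g := funext fun x => (prim_hasDerivAt hg x).deriv
  rwa [this]

lemma prim_cont {g : ℝ → ℝ} (hg : Continuous g) : Continuous (prim g) := (prim_c1 hg).continuous

lemma prim_add_one {g : ℝ → ℝ} (hg : Continuous g) (hp : ∀ x, g (x + 1) = g x) (x : ℝ) :
    prim g (x + 1) = prim g x + prim g 1 := by
  unfold prim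
  have h1 : ∫ t in x..(x + 1), g t = ∫ t in (0 : ℝ)..1, g t := by
    have := (show Function.Periodic g 1 from hp).intervalIntegral_add_eq x 0
    simpa using this
  rw [← h1, intervalIntegral.integral_add_adjacent_intervals (hg.intervalIntegrable _ _)
    (hg.intervalIntegrable _ _)]

lemma prim_zero (g : ℝ → ℝ) : prim g 0 = 0 := by simp [prim]

/-- if all the test functions touching `w` from above have slope at most `g`, then `w - ∫ g` is
nonincreasing -/
lemma antitone_of_touch {w g : ℝ → ℝ} (hw : Continuous w) (hg : Continuous g)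
    (h : ∀ φ : ℝ → ℝ, ContDiff ℝ 1 φ → ∀ x, IsLocalMax (w - φ) x → deriv φ x ≤ g x) :
    Antitone (fun x => w x - prim g x) := by
  intro x y hxy
  by_contra hlt
  simp only [not_le] at hlt
  set f : ℝ → ℝ := fun s => w s - prim g s with hf
  have hfc : Continuous f := hw.sub (prim_cont hg)
  have hlt' : f x < f y := hlt
  have hxy' : x < y := lt_of_le_of_ne hxy (by rintro rfl; exact lt_irrefl _ hlt)
  set η : ℝ := f y - f x with hη
  have hη0 : 0 < η := sub_pos.2 hlt'
  set K : ℝ := |f (y + 1) - f y| / η + 1 with hK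
  have hK0 : 0 < K := by positivity
  set θ : ℝ → ℝ := fun s => η * Real.exp (K * (s - y)) with hθ
  have hθd : ∀ s, HasDerivAt θ (η * (Real.exp (K * (s - y)) * K)) s := fun s => by
    have h1 : HasDerivAt (fun s : ℝ => K * (s - y)) K s := by
      simpa using ((hasDerivAt_id s).sub_const y).const_mul K
    exact (h1.exp).const_mul η
  have hθc : Continuous θ := by fun_prop
  obtain ⟨z, hz, hmax⟩ := (isCompact_Icc (a := x) (b := y + 1)).exists_isMaxOn
    ⟨x, left_mem_Icc.2 (by linarith)⟩ ((hfc.sub hθc).continuousOn)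
  have h1 : f x - θ x < f y - θ y := by
    have e1 : θ y = η := by simp [hθ]
    have e2 : 0 < θ x := by simp only [hθ]; positivity
    rw [e1]
    linarith
  have h2 : f (y + 1) - θ (y + 1) < f y - θ y := by
    have e1 : θ y = η := by simp [hθ]
    have e2 : θ (y + 1) = η * Real.exp K := by simp [hθ]
    have e3 : K + 1 ≤ Real.exp K := Real.add_one_le_exp K
    have e4 : η * (K + 1) ≤ η * Real.exp K := by gcongr
    have e5 : η * K = |f (y + 1) - f y| + η := by rw [hK]; field_simp
    have e6 := le_abs_self (f (y + 1) - f y)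
    rw [e1, e2]
    nlinarith
  have hzx : z ≠ x := by
    rintro rfl
    exact absurd (hmax ⟨hxy, by linarith⟩) (not_le.2 h1)
  have hzy : z ≠ y + 1 := by
    rintro rfl
    exact absurd (hmax ⟨hxy, by linarith⟩) (not_le.2 h2)
  have hzI : z ∈ Ioo x (y + 1) := ⟨lt_of_le_of_ne hz.1 hzx.symm, lt_of_le_of_ne hz.2 hzy⟩
  have hloc : IsLocalMax (w - (prim g + θ)) z := by
    filter_upwards [Icc_mem_nhds hzI.1 hzI.2] with s hs
    have := hmax hs
    simp only [Pi.sub_apply, Pi.add_apply, hf] at this ⊢
    simp only [mem_ofPred_eq] at this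
    linarith
  have hθ1 : ContDiff ℝ 1 θ := by simp only [hθ]; fun_prop
  have h3 := h (prim g + θ) ((prim_c1 hg).add hθ1) z hloc
  rw [((prim_hasDerivAt hg z).add (hθd z)).deriv] at h3
  have h4 : 0 < η * (Real.exp (K * (z - y)) * K) := by positivity
  linarith

lemma monotone_of_touch {w g : ℝ → ℝ} (hw : Continuous w) (hg : Continuous g)
    (h : ∀ φ : ℝ → ℝ, ContDiff ℝ 1 φ → ∀ x, IsLocalMax (w - φ) x → g x ≤ deriv φ x) :
    Monotone (fun x => w x - prim g x) := by
  have h1 : Antitone (fun x => w (-x) - prim (fun t => -g (-t)) x) := by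
    refine antitone_of_touch (hw.comp continuous_neg) (hg.comp continuous_neg).neg ?_
    intro φ hφ x hx
    have h2 : IsLocalMax (w - fun y => φ (-y)) (-x) := by
      have h3 := ((continuous_neg (G := ℝ)).tendsto' (-x) x (neg_neg x)).eventually hx
      filter_upwards [h3] with y hy
      simpa using hy
    have h4 := h _ (hφ.comp contDiff_neg) (-x) h2
    have h5 : deriv (fun y => φ (-y)) (-x) = -deriv φ x := by
      rw [deriv_comp_neg, neg_neg]
    have h6 : g (-x) ≤ deriv (fun y => φ (-y)) (-x) := h4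
    rw [h5] at h6
    show deriv φ x ≤ -g (-x)
    linarith
  intro x y hxy
  have h2 := h1 (neg_le_neg hxy)
  have h3 : ∀ z, prim (fun t => -g (-t)) (-z) = prim g z := fun z => by
    unfold prim
    rw [intervalIntegral.integral_neg, intervalIntegral.integral_comp_neg (fun t => g t),
      neg_neg, neg_zero, intervalIntegral.integral_symm, neg_neg]
  simp only [neg_neg, h3] at h2
  exact h2

lemma const_of_antitone_periodic {f : ℝ → ℝ} (hf : Antitone f) (hp : ∀ x, f (x + 1) = f x)
    (x y : ℝ) : f x = f y := by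
  wlog hxy : x ≤ y generalizing x y
  · exact (this y x (le_of_lt (not_le.1 hxy))).symm
  obtain ⟨n, hn⟩ := exists_nat_gt (y - x)
  have h1 : f (x + n) = f x := by
    have : Function.Periodic f 1 := hp
    simpa using this.nat_mul n x
  exact le_antisymm (h1 ▸ hf (by linarith)) (hf hxy)

lemma sandwich {V a b : ℝ → ℝ} {x P : ℝ} (ha : HasDerivAt a P x) (hb : HasDerivAt b P x)
    (h1 : Antitone (fun y => V y - a y)) (h2 : Monotone (fun y => V y - b y)) :
    HasDerivAt V P x := by
  rw [hasDerivAt_iff_isLittleO] at *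
  have h3 := (ha.norm_left).add (hb.norm_left)
  refine Asymptotics.IsBigO.trans_isLittleO ?_ h3
  refine Asymptotics.IsBigO.of_bound 1 (Eventually.of_forall fun y => ?_)
  simp only [smul_eq_mul, Real.norm_eq_abs, one_mul]
  rw [abs_of_nonneg (a := |a y - a x - (y - x) * P| + |b y - b x - (y - x) * P|)
    (by positivity)]
  have e1 := neg_abs_le (a y - a x - (y - x) * P)
  have e2 := le_abs_self (a y - a x - (y - x) * P)
  have e3 := neg_abs_le (b y - b x - (y - x) * P)
  have e4 := le_abs_self (b y - b x - (y - x) * P)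
  have e5 := abs_nonneg (a y - a x - (y - x) * P)
  have e6 := abs_nonneg (b y - b x - (y - x) * P)
  rcases le_total x y with h | h
  · have := h1 h
    have := h2 h
    simp only at *
    rw [abs_le]
    constructor <;> linarith
  · have := h1 h
    have := h2 h
    simp only at *
    rw [abs_le]
    constructor <;> linarith

section
variable {H : ℝ → ℝ → ℝ} (hH : Tonelli H) {c α : ℝ} {v : ℝ → ℝ}
  (hv : IsViscSol (shift H c) α v)
include hH hv

lemma visc_adm : Adm H α := by
  intro x₀
  by_contra hcon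
  push Not at hcon
  obtain ⟨M, μ, C, -, hc⟩ := exists_cst hH α 0
  have h1 : ∀ᶠ z in 𝓝 x₀, ∀ p ∈ Icc (-M) M, α < H z p := by
    refine isCompact_Icc.eventually_forall_of_forall_eventually (fun p _ => ?_)
    have : ContinuousAt (unc H) (x₀, p) := hH.c.continuousAt
    exact this.eventually_const_lt (hcon p)
  have h2 : ∀ᶠ z in 𝓝 x₀, ∀ p, α < H z p := by
    filter_upwards [h1] with z hz p
    by_contra hp
    exact hp (hz p (abs_le.1 (hc.bdd z p (not_lt.1 hp))))
  obtain ⟨r, hr, hball⟩ := Metric.eventually_nhds_iff_ball.1 h2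
  set ρ := r / 2 with hρ
  have hρ0 : 0 < ρ := by positivity
  set K := (|v (x₀ + ρ) - v x₀| + |v (x₀ - ρ) - v x₀| + 1) / ρ ^ 2 with hK
  set φ : ℝ → ℝ := fun y => K * (y - x₀) ^ 2 with hφ
  have hφc : Continuous φ := by fun_prop
  have hφ1 : ContDiff ℝ 1 φ := by simp only [hφ]; fun_prop
  obtain ⟨z, hz, hmax⟩ := (isCompact_Icc (a := x₀ - ρ) (b := x₀ + ρ)).exists_isMaxOn
    ⟨x₀, ⟨by linarith, by linarith⟩⟩ ((hv.1.sub hφc).continuousOn)
  have hmax' : ∀ y ∈ Icc (x₀ - ρ) (x₀ + ρ), v y - φ y ≤ v z - φ z := fun y hy => hmax hy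
  have hx₀ := hmax' x₀ ⟨by linarith, by linarith⟩
  have e0 : φ x₀ = 0 := by simp [hφ]
  have eK : K * ρ ^ 2 = |v (x₀ + ρ) - v x₀| + |v (x₀ - ρ) - v x₀| + 1 := by
    rw [hK]; field_simp
  have e1 := le_abs_self (v (x₀ + ρ) - v x₀)
  have e2 := le_abs_self (v (x₀ - ρ) - v x₀)
  have e3 := abs_nonneg (v (x₀ + ρ) - v x₀)
  have e4 := abs_nonneg (v (x₀ - ρ) - v x₀)
  have hz1 : z ≠ x₀ + ρ := by
    rintro rfl
    have : φ (x₀ + ρ) = K * ρ ^ 2 := by simp [hφ]
    rw [this, eK, e0] at hx₀
    linarith
  have hz2 : z ≠ x₀ - ρ := by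
    rintro rfl
    have : φ (x₀ - ρ) = K * ρ ^ 2 := by simp [hφ]
    rw [this, eK, e0] at hx₀
    linarith
  have hzI : z ∈ Ioo (x₀ - ρ) (x₀ + ρ) :=
    ⟨lt_of_le_of_ne hz.1 hz2.symm, lt_of_le_of_ne hz.2 hz1⟩
  have hloc : IsLocalMax (v - φ) z := by
    filter_upwards [Icc_mem_nhds hzI.1 hzI.2] with s hs
    exact hmax' s hs
  have h3 := hv.2.2.1 φ hφ1 z hloc
  refine absurd h3 (not_le.2 (hball z ?_ _))
  rw [Metric.mem_ball, Real.dist_eq, abs_lt]
  constructor <;> linarith [hzI.1, hzI.2]

lemma visc_antitone : Antitone (fun x => v x - c * x - prim (Pp H α) x) := by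
  have hk := visc_adm hH hv
  have hPc := Pp_cont hH hk
  have h1 := antitone_of_touch (g := fun x => c + Pp H α x) hv.1 (continuous_const.add hPc)
    (fun φ hφ x hx => by
      have := le_Pp hH (hv.2.2.1 φ hφ x hx : H x (deriv φ x - c) ≤ α)
      linarith)
  have h2 : ∀ x, prim (fun x => c + Pp H α x) x = c * x + prim (Pp H α) x := fun x => by
    unfold prim
    rw [intervalIntegral.integral_add (by simp) (hPc.intervalIntegrable _ _)]
    simp [mul_comm]
  intro x y hxy
  have := h1 hxy
  simp only [h2] at this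
  simp only
  linarith

lemma visc_monotone : Monotone (fun x => v x - c * x - prim (Pm H α) x) := by
  have hk := visc_adm hH hv
  have hPc := Pm_cont hH hk
  have h1 := monotone_of_touch (g := fun x => c + Pm H α x) hv.1 (continuous_const.add hPc)
    (fun φ hφ x hx => by
      have := Pm_le hH (hv.2.2.1 φ hφ x hx : H x (deriv φ x - c) ≤ α)
      linarith)
  have h2 : ∀ x, prim (fun x => c + Pm H α x) x = c * x + prim (Pm H α) x := fun x => by
    unfold prim
    rw [intervalIntegral.integral_add (by simp) (hPc.intervalIntegrable _ _)]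
    simp [mul_comm]
  intro x y hxy
  have := h1 hxy
  simp only [h2] at this
  simp only
  linarith

lemma rot_le : -c ≤ prim (Pp H α) 1 := by
  have h1 := visc_antitone hH hv (zero_le_one (α := ℝ))
  have h2 : v 1 = v 0 := by simpa using hv.2.1 0
  simp only [prim_zero, h2] at h1
  linarith

lemma le_rot : prim (Pm H α) 1 ≤ -c := by
  have h1 := visc_monotone hH hv (zero_le_one (α := ℝ))
  have h2 : v 1 = v 0 := by simpa using hv.2.1 0
  simp only [prim_zero, h2] at h1
  linarith

/-- the extreme rotation: the solution follows the upper branch -/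
lemma visc_upper (h : -c = prim (Pp H α) 1) (x : ℝ) : HasDerivAt v (c + Pp H α x) x := by
  have hk := visc_adm hH hv
  have hPc := Pp_cont hH hk
  have h1 := const_of_antitone_periodic (visc_antitone hH hv) (fun x => by
    rw [prim_add_one hPc (Pp_per hH α), hv.2.1 x, ← h]
    ring)
  have h2 : v = fun y => (v 0 - c * 0 - prim (Pp H α) 0) + (c * y + prim (Pp H α) y) := by
    funext y
    have := h1 y 0
    linarith
  rw [h2]
  have h3 := ((hasDerivAt_id x).const_mul c).add (prim_hasDerivAt hPc x)
  simp only [mul_one] at h3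
  exact h3.const_add _

lemma visc_lower (h : -c = prim (Pm H α) 1) (x : ℝ) : HasDerivAt v (c + Pm H α x) x := by
  have hk := visc_adm hH hv
  have hPc := Pm_cont hH hk
  have h0 : Antitone (fun x => -(v x - c * x - prim (Pm H α) x)) := (visc_monotone hH hv).neg
  have h1 := const_of_antitone_periodic h0 (fun x => by
    rw [prim_add_one hPc (Pm_per hH α), hv.2.1 x, ← h]
    ring)
  have h2 : v = fun y => (v 0 - c * 0 - prim (Pm H α) 0) + (c * y + prim (Pm H α) y) := by
    funext y
    have := h1 y 0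
    linarith
  rw [h2]
  have h3 := ((hasDerivAt_id x).const_mul c).add (prim_hasDerivAt hPc x)
  simp only [mul_one] at h3
  exact h3.const_add _

/-- where the branches meet, the solution is differentiable -/
lemma visc_meet {x : ℝ} (h : Pm H α x = Pp H α x) : HasDerivAt v (c + Pp H α x) x := by
  have hk := visc_adm hH hv
  have h1 : HasDerivAt (fun y => v y - c * y) (Pp H α x) x := by
    refine sandwich (prim_hasDerivAt (Pp_cont hH hk) x) ?_ (visc_antitone hH hv)
      (visc_monotone hH hv)
    rw [← h]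
    exact prim_hasDerivAt (Pm_cont hH hk) x
  have h2 := h1.add ((hasDerivAt_id x).const_mul c)
  simp only [mul_one] at h2
  have e : (fun y => v y - c * y) + (fun y => c * id y) = v := by
    funext y
    simp
  rw [add_comm]
  exact e ▸ h2

end

end Pool.Agent.KS6_52.WK
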